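import Pool.Agent.P.MP_11c1cd_al.Basic

namespace Pool.Agent.P.MP_11c1cd_al

open Pointwise Subgroup

variable {G : Type*} [Group G]

/-- The largest `l`-subgroup of `Y` normalised by `Y`. -/
def Op (l : ℕ) (Y : Subgroup G) : Subgroup G :=
  sSup {M | M ≤ Y ∧ Y ≤ normalizer (M : Set G) ∧ IsPGroup l M}

theorem le_Op {l : ℕ} {Y M : Subgroup G} (h1 : M ≤ Y) (h2 : Y ≤ normalizer (M : Set G))
    (h3 : IsPGroup l M) : M ≤ Op l Y := le_sSup ⟨h1, h2, h3⟩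

theorem Op_spec [Finite G] (l : ℕ) (Y : Subgroup G) :
    Op l Y ≤ Y ∧ Y ≤ normalizer (Op l Y : Set G) ∧ IsPGroup l (Op l Y) := by
  obtain ⟨M, hM⟩ := (Set.toFinite {M : Subgroup G | M ≤ Y ∧ Y ≤ normalizer (M : Set G) ∧
    IsPGroup l M}).exists_maximal ⟨⊥, bot_le, by rw [normalizer_eq_top]; exact le_top, IsPGroup.of_bot⟩
  have : Op l Y = M := by
    apply le_antisymm _ (le_sSup hM.1)
    apply sSup_le
    intro M' hM'
    refine le_sup_right.trans (hM.2 (y := M ⊔ M') ⟨sup_le hM.1.1 hM'.1, ?_, ?_⟩ le_sup_left)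
    · exact (le_inf hM.1.2.1 hM'.2.1).trans (normalizer_inf_normalizer_le_normalizer_sup M M')
    · exact hM.1.2.2.to_sup_of_normal_right' hM'.2.2 (hM.1.1.trans hM'.2.1)
  rw [this]; exact hM.1

theorem Op_le [Finite G] (l : ℕ) (Y : Subgroup G) : Op l Y ≤ Y := (Op_spec l Y).1

theorem le_normalizer_Op [Finite G] (l : ℕ) (Y : Subgroup G) :
    Y ≤ normalizer (Op l Y : Set G) := (Op_spec l Y).2.1

theorem isPGroup_Op [Finite G] (l : ℕ) (Y : Subgroup G) : IsPGroup l (Op l Y) := (Op_spec l Y).2.2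

theorem normalizer_le_normalizer_Op [Finite G] (l : ℕ) (Y : Subgroup G) :
    normalizer (Y : Set G) ≤ normalizer (Op l Y : Set G) := by
  intro g hg
  apply mem_normalizer_fintype
  intro m hm
  have : (Op l Y).map (MulAut.conj g).toMonoidHom ≤ Op l Y := by
    apply le_Op
    · rintro _ ⟨x, hx, rfl⟩
      exact (mem_normalizer_iff.1 hg x).1 (Op_le l Y hx)
    · rw [le_normalizer_iff]
      rintro y hy _ ⟨x, hx, rfl⟩
      have hy' : g⁻¹ * y * g ∈ Y := (mem_normalizer_iff''.1 hg y).1 hy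
      refine ⟨_, (mem_normalizer_iff.1 (le_normalizer_Op l Y hy') x).1 hx, ?_⟩
      simp only [MulEquiv.toMonoidHom_eq_coe, MonoidHom.coe_coe, MulAut.conj_apply]
      group
    · exact (isPGroup_Op l Y).map _
  exact this ⟨m, hm, rfl⟩

theorem exists_normalizing [Finite G] {l : ℕ} [Fact l.Prime] {C : Set G}
    (hC : ∀ c ∈ C, ∀ d ∈ C, c * d * c⁻¹ ∈ C) {P Q : Subgroup G} (hP : IsPGroup l P)
    (hne : ¬ C ∩ P ⊆ Q) :
    ∃ c ∈ C, c ∈ P ∧ c ∉ Q ∧ ∀ d ∈ C ∩ P ∩ Q, c * d * c⁻¹ ∈ C ∩ P ∩ Q := by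
  obtain ⟨T, hT⟩ := (Set.toFinite {T : Subgroup G | T ≤ P ∧ C ∩ T = C ∩ P ∩ Q}).exists_maximal
    ⟨P ⊓ Q, inf_le_left, by simp [Set.inter_assoc]⟩
  have hTP : T.subgroupOf P < ⊤ := by
    rw [lt_top_iff_ne_top, Ne, subgroupOf_eq_top]
    intro hle
    apply hne
    intro c hc
    have : c ∈ C ∩ T := ⟨hc.1, hle hc.2⟩
    rw [hT.1.2] at this
    exact this.2
  have := hP.isNilpotent
  have hlt := Group.normalizerCondition_of_isNilpotent (G := P) _ hTP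
  rw [← subgroupOf_normalizer_eq hT.1.1] at hlt
  set T' := P ⊓ normalizer (T : Set G) with hT'
  have hTT' : T ≤ T' := le_inf hT.1.1 le_normalizer
  have hne' : C ∩ T' ≠ C ∩ P ∩ Q := by
    intro e
    have := hT.2 (y := T') ⟨inf_le_left, e⟩ hTT'
    apply hlt.not_ge
    intro z hz
    exact this ⟨z.2, hz⟩
  have hsub : C ∩ P ∩ Q ⊆ C ∩ T' := by
    rw [← hT.1.2]; exact Set.inter_subset_inter_right _ hTT'
  obtain ⟨c, hc, hc'⟩ := Set.exists_of_ssubset (hsub.ssubset_of_ne hne'.symm)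
  refine ⟨c, hc.1, hc.2.1, fun hQ => hc' ⟨⟨hc.1, hc.2.1⟩, hQ⟩, fun d hd => ?_⟩
  rw [← hT.1.2] at hd ⊢
  exact ⟨hC c hc.1 d hd.1, (mem_normalizer_iff.1 hc.2.2 d).1 hd.2⟩

/-- The Baer-Suzuki theorem. -/
theorem baer_suzuki [Finite G] {l : ℕ} [Fact l.Prime] (x : G)
    (h : ∀ g : G, IsPGroup l (closure {x, g * x * g⁻¹})) : IsPGroup l (normalClosure {x}) := by
  classical
  set C : Set G := {c | ∃ g, c = g * x * g⁻¹} with hCdef
  have hCconj : ∀ g, ∀ d ∈ C, g * d * g⁻¹ ∈ C := by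
    rintro g _ ⟨g', rfl⟩
    exact ⟨g * g', by group⟩
  have hpair : ∀ c ∈ C, ∀ d ∈ C, IsPGroup l (closure {c, d}) := by
    rintro _ ⟨g, rfl⟩ _ ⟨g', rfl⟩
    apply ((h (g⁻¹ * g')).map (MulAut.conj g).toMonoidHom).to_le
    rw [closure_le]
    rintro c (rfl | rfl)
    · exact ⟨x, subset_closure (by simp), rfl⟩
    · refine ⟨g⁻¹ * g' * x * (g⁻¹ * g')⁻¹, subset_closure (by simp), ?_⟩
      simp only [MulEquiv.toMonoidHom_eq_coe, MonoidHom.coe_coe, MulAut.conj_apply]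
      group
  have hcard : ∀ P Q : Sylow l G, (C ∩ (P : Subgroup G)).ncard ≤ (C ∩ (Q : Subgroup G)).ncard := by
    intro P Q
    obtain ⟨g, rfl⟩ := MulAction.exists_smul_eq G P Q
    apply Set.ncard_le_ncard_of_injOn (fun c => g * c * g⁻¹)
    · rintro c ⟨hc, hP⟩
      refine ⟨hCconj g c hc, ?_⟩
      rw [Sylow.coe_subgroup_smul]
      exact ⟨c, hP, rfl⟩
    · intro a _ b _ e
      simpa using e
  have hsymm : ∀ P Q : Sylow l G, C ∩ (P : Subgroup G) ⊆ (Q : Subgroup G) →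
      C ∩ (Q : Subgroup G) ⊆ (P : Subgroup G) := by
    intro P Q hPQ
    have : C ∩ (P : Subgroup G) = C ∩ (Q : Subgroup G) :=
      Set.eq_of_subset_of_ncard_le (fun c hc => ⟨hc.1, hPQ hc⟩) (hcard Q P)
    rw [← this]; exact Set.inter_subset_right
  have hall : ∀ P Q : Sylow l G, C ∩ (P : Subgroup G) ⊆ (Q : Subgroup G) := by
    by_contra hcon
    push Not at hcon
    obtain ⟨PQ, hPQ, hmax⟩ := Set.exists_max_image
      {PQ : Sylow l G × Sylow l G | ¬ C ∩ (PQ.1 : Subgroup G) ⊆ (PQ.2 : Subgroup G)}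
      (fun PQ => (C ∩ (PQ.1 : Subgroup G) ∩ (PQ.2 : Subgroup G)).ncard) (Set.toFinite _)
      (by obtain ⟨P, Q, hPQ⟩ := hcon; exact ⟨(P, Q), hPQ⟩)
    obtain ⟨P, Q⟩ := PQ
    simp only [Set.mem_ofPred_eq] at hPQ hmax
    have hQP : ¬ C ∩ (Q : Subgroup G) ⊆ (P : Subgroup G) := fun e => hPQ (hsymm Q P e)
    obtain ⟨c1, hc1, hc1P, hc1Q, hn1⟩ :=
      exists_normalizing (fun c _ d hd => hCconj c d hd) P.isPGroup' hPQ
    obtain ⟨c2, hc2, hc2Q, hc2P, hn2⟩ :=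
      exists_normalizing (fun c _ d hd => hCconj c d hd) Q.isPGroup' hQP
    set S : Set G := C ∩ (P : Subgroup G) ∩ (Q : Subgroup G) with hS
    have hS' : C ∩ (Q : Subgroup G) ∩ (P : Subgroup G) = S := Set.inter_right_comm _ _ _
    rw [hS'] at hn2
    have hD : IsPGroup l (closure S) :=
      P.isPGroup'.to_le ((closure_le _).2 fun c hc => hc.1.2)
    have hJ : IsPGroup l (closure {c1, c2} ⊔ closure S : Subgroup G) := by
      apply (hpair c1 hc1 c2 hc2).to_sup_of_normal_right' hD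
      rw [closure_le]
      rintro c (rfl | rfl)
      · exact normalizer_le_normalizer_closure S (mem_normalizer_fintype hn1)
      · exact normalizer_le_normalizer_closure S (mem_normalizer_fintype hn2)
    obtain ⟨R, hR⟩ := hJ.exists_le_sylow
    have hSR : S ⊆ (R : Subgroup G) := fun c hc => hR (mem_sup_right (subset_closure hc))
    have h1R : c1 ∈ (R : Subgroup G) := hR (mem_sup_left (subset_closure (by simp)))
    have h2R : c2 ∈ (R : Subgroup G) := hR (mem_sup_left (subset_closure (by simp)))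
    have hPR : C ∩ (P : Subgroup G) ⊆ (R : Subgroup G) := by
      by_contra hcon
      refine absurd (hmax (P, R) hcon) (not_le.2 (Set.ncard_lt_ncard ?_))
      refine ⟨fun c hc => ⟨hc.1, hSR hc⟩, fun e => hc1Q (e ⟨⟨hc1, hc1P⟩, h1R⟩).2⟩
    exact hc2P (hsymm P R hPR ⟨hc2, h2R⟩)
  obtain ⟨P, hP⟩ := (h 1).exists_le_sylow
  apply P.isPGroup'.to_le
  refine (closure_le _).2 ?_
  intro c hc
  rw [Group.mem_conjugatesOfSet_iff] at hc
  obtain ⟨y, rfl, hc⟩ := hc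
  obtain ⟨g, rfl⟩ := isConj_iff.1 hc
  obtain ⟨Q, hQ⟩ := (h g).exists_le_sylow
  exact hall Q P ⟨⟨g, rfl⟩, hQ (subset_closure (by simp))⟩

theorem le_Op_of_pairs [Finite G] {l : ℕ} [Fact l.Prime] {Y L : Subgroup G} (hL : L ≤ Y)
    (h : ∀ x ∈ L, ∀ g ∈ Y, ∃ R : Subgroup G, IsPGroup l R ∧ x ∈ R ∧ g * x * g⁻¹ ∈ R) :
    L ≤ Op l Y := by
  intro x hx
  let x' : Y := ⟨x, hL hx⟩
  have := baer_suzuki (l := l) x' (fun g => by
    obtain ⟨R, hR, h1, h2⟩ := h x hx g g.2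
    apply (hR.comap_subtype (K := Y)).to_le
    rw [closure_le]
    rintro c (rfl | rfl)
    · exact h1
    · exact h2)
  refine le_Op (M := (normalClosure {x'}).map Y.subtype) (map_subtype_le _) ?_ (this.map _)
    ⟨x', subset_normalClosure rfl, rfl⟩
  rw [le_normalizer_iff]
  rintro y hy _ ⟨z, hz, rfl⟩
  exact ⟨_, (normalClosure_normal (s := {x'})).conj_mem z hz ⟨y, hy⟩, rfl⟩

theorem Pm.le_Op_sup [Finite G] {l : ℕ} [Fact l.Prime] {X Y L : Subgroup G} (h : Pm X Y)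
    (hX : L ≤ Op l X) (hY : L ≤ Op l Y) : L ≤ Op l (X ⊔ Y) := by
  have key : ∃ R : Subgroup G, IsPGroup l R ∧ Op l X ≤ R ∧ Op l Y ≤ R := by
    obtain ⟨P, hP⟩ := ((isPGroup_Op l X).comap_subtype (K := X ⊔ Y)).exists_le_sylow
    obtain ⟨Q, hQ⟩ := ((isPGroup_Op l Y).comap_subtype (K := X ⊔ Y)).exists_le_sylow
    obtain ⟨g, rfl⟩ := MulAction.exists_smul_eq (X ⊔ Y : Subgroup G) P Q
    obtain ⟨v, hv, u, hu, e⟩ := h.symm.mem_sup (g := (g : G)) (by rw [sup_comm]; exact g.2)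
    refine ⟨((P : Subgroup (X ⊔ Y : Subgroup G)).map (X ⊔ Y).subtype).map
      (MulAut.conj u).toMonoidHom, (P.isPGroup'.map _).map _, fun z hz => ?_, fun z hz => ?_⟩
    · have h1 : u⁻¹ * z * u ∈ Op l X := (mem_normalizer_iff''.1 (le_normalizer_Op l X hu) z).1 hz
      refine ⟨u⁻¹ * z * u, ⟨⟨_, mem_sup_left (Op_le l X h1)⟩, hP h1, rfl⟩, ?_⟩
      simp only [MulEquiv.toMonoidHom_eq_coe, MonoidHom.coe_coe, MulAut.conj_apply]
      group
    · have h1 : v * z * v⁻¹ ∈ Op l Y := (mem_normalizer_iff.1 (le_normalizer_Op l Y hv) z).1 hz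
      have h2 := hQ (x := ⟨_, mem_sup_right (Op_le l Y h1)⟩) h1
      rw [Sylow.coe_subgroup_smul] at h2
      obtain ⟨w, hw, e'⟩ := h2
      refine ⟨w, ⟨w, hw, rfl⟩, ?_⟩
      have e2 : (g : G) * w * (g : G)⁻¹ = v * z * v⁻¹ := congrArg Subtype.val e'
      simp only [MulEquiv.toMonoidHom_eq_coe, MonoidHom.coe_coe, MulAut.conj_apply]
      rw [e] at e2
      calc u * w * u⁻¹ = v⁻¹ * (v * u * w * (v * u)⁻¹) * v := by group
        _ = z := by rw [e2]; group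
  obtain ⟨R, hR, h1, h2⟩ := key
  apply le_Op_of_pairs ((hX.trans (Op_le l X)).trans le_sup_left)
  intro x hx g hg
  obtain ⟨u, hu, v, hv, rfl⟩ := h.mem_sup hg
  refine ⟨R.map (MulAut.conj u).toMonoidHom, hR.map _, ⟨u⁻¹ * x * u,
    h1 ((mem_normalizer_iff''.1 (le_normalizer_Op l X hu) x).1 (hX hx)), ?_⟩, ⟨v * x * v⁻¹,
    h2 ((mem_normalizer_iff.1 (le_normalizer_Op l Y hv) x).1 (hY hx)), ?_⟩⟩
  · simp only [MulEquiv.toMonoidHom_eq_coe, MonoidHom.coe_coe, MulAut.conj_apply]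
    group
  · simp only [MulEquiv.toMonoidHom_eq_coe, MonoidHom.coe_coe, MulAut.conj_apply]
    group

end Pool.Agent.P.MP_11c1cd_al
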