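import Pool.Agent.P.MP_11c1cd_al.Defs

namespace Pool.Agent.P.MP_11c1cd_al

open Pointwise Subgroup

variable {G : Type*} [Group G]

/-- Elementwise form of permutability. -/
def Pm (X Y : Subgroup G) : Prop :=
  ∀ x ∈ X, ∀ y ∈ Y, ∃ y' ∈ Y, ∃ x' ∈ X, x * y = y' * x'

theorem Pm.symm {X Y : Subgroup G} (h : Pm X Y) : Pm Y X := by
  intro y hy x hx
  obtain ⟨y', hy', x', hx', e⟩ := h x⁻¹ (X.inv_mem hx) y⁻¹ (Y.inv_mem hy)
  refine ⟨x'⁻¹, X.inv_mem hx', y'⁻¹, Y.inv_mem hy', ?_⟩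
  have : y * x = (x⁻¹ * y⁻¹)⁻¹ := by group
  rw [this, e]; group

theorem Permutes.pm {X Y : Subgroup G} (h : Permutes X Y) : Pm X Y := by
  intro x hx y hy
  have : x * y ∈ (Y : Set G) * (X : Set G) := by
    rw [← h]; exact Set.mul_mem_mul hx hy
  obtain ⟨y', hy', x', hx', e⟩ := this
  exact ⟨y', hy', x', hx', e.symm⟩

theorem pm_of_le {X Y : Subgroup G} (h : X ≤ Y) : Pm X Y := by
  intro x hx y hy
  exact ⟨x * y, Y.mul_mem (h hx) hy, 1, X.one_mem, by simp⟩

theorem Pm.iSup_left {ι : Sort*} {X : ι → Subgroup G} {Y : Subgroup G} (h : ∀ i, Pm (X i) Y) :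
    Pm (⨆ i, X i) Y := by
  intro x hx
  induction hx using Subgroup.iSup_induction' with
  | hp i x hx =>
    intro y hy
    obtain ⟨y', hy', x', hx', e⟩ := h i x hx y hy
    exact ⟨y', hy', x', (le_iSup X i) hx', e⟩
  | h1 => intro y hy; exact ⟨y, hy, 1, one_mem _, by simp⟩
  | hmul a b _ _ iha ihb =>
    intro y hy
    obtain ⟨y', hy', x', hx', e⟩ := ihb y hy
    obtain ⟨y'', hy'', x'', hx'', e'⟩ := iha y' hy'
    refine ⟨y'', hy'', x'' * x', mul_mem hx'' hx', ?_⟩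
    rw [mul_assoc, e, ← mul_assoc, e', mul_assoc]

theorem Pm.sup_left {X X' Y : Subgroup G} (h : Pm X Y) (h' : Pm X' Y) : Pm (X ⊔ X') Y := by
  rw [sup_eq_iSup]
  apply Pm.iSup_left
  intro i
  cases i
  · exact h'
  · exact h

theorem Pm.sup_right {X Y Y' : Subgroup G} (h : Pm X Y) (h' : Pm X Y') : Pm X (Y ⊔ Y') :=
  (h.symm.sup_left h'.symm).symm

theorem Pm.mem_sup {X Y : Subgroup G} (h : Pm X Y) {g : G} (hg : g ∈ X ⊔ Y) :
    ∃ x ∈ X, ∃ y ∈ Y, g = x * y := by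
  let S : Subgroup G :=
    { carrier := {g | ∃ x ∈ X, ∃ y ∈ Y, g = x * y}
      one_mem' := ⟨1, X.one_mem, 1, Y.one_mem, by simp⟩
      mul_mem' := by
        rintro _ _ ⟨x, hx, y, hy, rfl⟩ ⟨x', hx', y', hy', rfl⟩
        obtain ⟨a, ha, b, hb, e⟩ := h.symm y hy x' hx'
        refine ⟨x * a, X.mul_mem hx ha, b * y', Y.mul_mem hb hy', ?_⟩
        calc x * y * (x' * y') = x * (y * x') * y' := by group
          _ = x * a * (b * y') := by rw [e]; group
      inv_mem' := by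
        rintro _ ⟨x, hx, y, hy, rfl⟩
        obtain ⟨a, ha, b, hb, e⟩ := h.symm y⁻¹ (Y.inv_mem hy) x⁻¹ (X.inv_mem hx)
        exact ⟨a, ha, b, hb, by rw [← e]; group⟩ }
  have : X ⊔ Y ≤ S := sup_le (fun x hx => ⟨x, hx, 1, Y.one_mem, by simp⟩)
    (fun y hy => ⟨1, X.one_mem, y, hy, by simp⟩)
  exact this hg

theorem pm_of_mem_sup {X Y : Subgroup G}
    (h : ∀ g ∈ X ⊔ Y, ∃ y ∈ Y, ∃ x ∈ X, g = y * x) : Pm X Y :=
  fun x hx y hy => h (x * y) (mul_mem_sup hx hy)

theorem Pm.map {X Y : Subgroup G} (h : Pm X Y) {G' : Type*} [Group G'] (f : G →* G') :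
    Pm (X.map f) (Y.map f) := by
  rintro _ ⟨x, hx, rfl⟩ _ ⟨y, hy, rfl⟩
  obtain ⟨y', hy', x', hx', e⟩ := h x hx y hy
  exact ⟨f y', ⟨y', hy', rfl⟩, f x', ⟨x', hx', rfl⟩, by rw [← map_mul, e, map_mul]⟩

theorem Pm.relIndex_sup {X Y : Subgroup G} (h : Pm X Y) : X.relIndex (X ⊔ Y) = X.relIndex Y := by
  have key : ∀ Z : Subgroup G, X.relIndex Z = (MulAction.orbit Z ((1 : G) : G ⧸ X)).ncard := by
    intro Z
    rw [← MulAction.index_stabilizer]
    unfold Subgroup.relIndex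
    congr 1
    ext z
    simp only [mem_subgroupOf, MulAction.mem_stabilizer_iff]
    change _ ↔ (((z : G) * 1 : G) : G ⧸ X) = ((1 : G) : G ⧸ X)
    rw [QuotientGroup.eq]
    simp
  rw [key, key]
  congr 1
  ext c
  constructor
  · rintro ⟨⟨z, hz⟩, rfl⟩
    rw [sup_comm] at hz
    obtain ⟨y, hy, x, hx, rfl⟩ := h.symm.mem_sup hz
    refine ⟨⟨y, hy⟩, ?_⟩
    change ((y * 1 : G) : G ⧸ X) = ((y * x * 1 : G) : G ⧸ X)
    rw [QuotientGroup.eq]
    simpa using hx
  · rintro ⟨⟨y, hy⟩, rfl⟩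
    exact ⟨⟨y, mem_sup_right hy⟩, rfl⟩

theorem card_eq_mul_relIndex {X Z : Subgroup G} (h : X ≤ Z) :
    Nat.card Z = Nat.card X * X.relIndex Z := by
  have := (X.subgroupOf Z).card_mul_index
  rw [← this, Nat.card_congr (subgroupOfEquivOfLe h).toEquiv]
  rfl

theorem Pm.card_sup {X Y : Subgroup G} (h : Pm X Y) :
    Nat.card (X ⊔ Y : Subgroup G) = Nat.card X * X.relIndex Y := by
  rw [card_eq_mul_relIndex (le_sup_left : X ≤ X ⊔ Y), h.relIndex_sup]

theorem Pm.card_sup_dvd {X Y : Subgroup G} (h : Pm X Y) :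
    Nat.card (X ⊔ Y : Subgroup G) ∣ Nat.card X * Nat.card Y := by
  rw [h.card_sup]
  exact Nat.mul_dvd_mul_left _ (X.relIndex_dvd_card Y)

/-- Elementwise mutual permutability. -/
def MP (A B : Subgroup G) : Prop :=
  (∀ Y : Subgroup G, Y ≤ B → Pm A Y) ∧ (∀ X : Subgroup G, X ≤ A → Pm X B)

theorem MutuallyPermutable.mp {A B : Subgroup G} (h : MutuallyPermutable A B) : MP A B :=
  ⟨fun Y hY => (h.1 Y hY).pm, fun X hX => (h.2 X hX).pm⟩

theorem MP.symm {A B : Subgroup G} (h : MP A B) : MP B A :=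
  ⟨fun Y hY => (h.2 Y hY).symm, fun X hX => (h.1 X hX).symm⟩

theorem MP.pm {A B : Subgroup G} (h : MP A B) : Pm A B := h.1 B le_rfl

theorem MP.map {A B : Subgroup G} (h : MP A B) {G' : Type*} [Group G'] (f : G →* G') :
    MP (A.map f) (B.map f) := by
  have key : ∀ {A B : Subgroup G}, MP A B → ∀ Y : Subgroup G', Y ≤ B.map f → Pm (A.map f) Y := by
    intro A B h Y hY
    have : (B ⊓ Y.comap f).map f = Y := by
      apply le_antisymm
      · rintro _ ⟨x, hx, rfl⟩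
        exact hx.2
      · intro y hy
        obtain ⟨b, hb, rfl⟩ := hY hy
        exact ⟨b, ⟨hb, hy⟩, rfl⟩
    rw [← this]
    exact (h.1 _ inf_le_left).map f
  exact ⟨key h, fun X hX => (key h.symm X hX).symm⟩

theorem MP.subgroupOf {A B : Subgroup G} (h : MP A B) (U : Subgroup G) :
    MP (A.subgroupOf U) (B.subgroupOf U) := by
  have key : ∀ {A B : Subgroup G}, MP A B → ∀ Y : Subgroup U, Y ≤ B.subgroupOf U →
      Pm (A.subgroupOf U) Y := by
    intro A B h Y hY x hx y hy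
    have hle : Y.map U.subtype ≤ B := by
      rintro _ ⟨z, hz, rfl⟩
      exact hY hz
    obtain ⟨_, ⟨y', hy', rfl⟩, x', hx', e⟩ := h.1 _ hle (x : G) hx (y : G) ⟨y, hy, rfl⟩
    have hx'U : x' = ((y'⁻¹ * (x * y) : U) : G) := by
      simp only [coe_mul, coe_inv]
      rw [e]; simp
    refine ⟨y', hy', y'⁻¹ * (x * y), ?_, by group⟩
    rw [mem_subgroupOf, ← hx'U]; exact hx'
  exact ⟨key h, fun X hX => (key h.symm X hX).symm⟩

/-- The intersection of mutually permutable subgroups is permutable in the second factor. -/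
theorem MP.inf_pm {A B : Subgroup G} (h : MP A B) {Y : Subgroup G} (hY : Y ≤ B) :
    Pm (A ⊓ B) Y := by
  intro x hx y hy
  obtain ⟨y', hy', x', hx', e⟩ := h.1 Y hY x hx.1 y hy
  refine ⟨y', hy', x', ⟨hx', ?_⟩, e⟩
  have : x' = y'⁻¹ * (x * y) := by rw [e]; group
  rw [this]
  exact B.mul_mem (B.inv_mem (hY hy')) (B.mul_mem hx.2 (hY hy))

/-- A prime dividing the order of a join of pairwise permutable subgroups divides the order of
one of them. -/
theorem prime_dvd_iSup {ι : Type*} [Finite ι] (H : ι → Subgroup G)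
    (h : ∀ i j, i ≠ j → Pm (H i) (H j)) {q : ℕ} (hq : q.Prime)
    (hd : q ∣ Nat.card (⨆ i, H i : Subgroup G)) : ∃ i, q ∣ Nat.card (H i) := by
  classical
  have key : ∀ J : Finset ι, q ∣ Nat.card (⨆ i ∈ J, H i : Subgroup G) →
      ∃ i, q ∣ Nat.card (H i) := by
    intro J
    induction J using Finset.induction_on with
    | empty =>
      intro hd
      simp only [Finset.notMem_empty, iSup_false, iSup_bot, card_bot, Nat.dvd_one] at hd
      exact absurd hd hq.ne_one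
    | insert j J hj ih =>
      intro hd
      rw [Finset.iSup_insert] at hd
      have hp : Pm (H j) (⨆ i ∈ J, H i) := by
        apply Pm.symm
        apply Pm.iSup_left
        intro i
        apply Pm.iSup_left
        intro hi
        exact h i j (fun e => hj (e ▸ hi))
      rcases (Nat.Prime.dvd_mul hq).1 (hd.trans hp.card_sup_dvd) with h1 | h1
      · exact ⟨j, h1⟩
      · exact ih h1
  have := Fintype.ofFinite ι
  apply key Finset.univ
  simpa using hd

end Pool.Agent.P.MP_11c1cd_al
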