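import Pool.Agent.P.MP_11c1cd_al.Struct

namespace Pool.Agent.P.MP_11c1cd_al

open Pointwise Subgroup

variable {G : Type*} [Group G]

/-- `x` is a `q`-element. -/
def QElt (q : ℕ) (x : G) : Prop := ∃ a : ℕ, x ^ q ^ a = 1

theorem QElt.map {q : ℕ} {x : G} (h : QElt q x) {G' : Type*} [Group G'] (f : G →* G') :
    QElt q (f x) := by
  obtain ⟨a, ha⟩ := h
  exact ⟨a, by rw [← map_pow, ha, map_one]⟩

theorem exists_qpart [Finite G] {q : ℕ} (hq : q.Prime) (x : G) :
    ∃ m : ℕ, q.Coprime m ∧ QElt q (x ^ m) := by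
  obtain ⟨a, m, hm, e⟩ := Nat.exists_eq_pow_mul_and_not_dvd (orderOf_pos x).ne' q hq.ne_one
  exact ⟨m, (Nat.Prime.coprime_iff_not_dvd hq).2 hm, a,
    by rw [← pow_mul, mul_comm, ← e, pow_orderOf_eq_one]⟩

theorem QElt.mem_of_pow_mem {q m : ℕ} {x : G} (h : QElt q x) (hm : q.Coprime m) {S : Subgroup G}
    (hS : x ^ m ∈ S) : x ∈ S := by
  obtain ⟨a, ha⟩ := h
  have : x ∈ zpowers (x ^ m) := by
    rw [mem_zpowers_pow_iff]
    exact Nat.Coprime.coprime_dvd_right (orderOf_dvd_of_pow_eq_one ha) (hm.symm.pow_right a)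
  exact (show zpowers (x ^ m) ≤ S by simpa using hS) this

theorem QElt.eq_one {p q : ℕ} {x : G} (h : QElt q x) (h' : QElt p x) (hpq : q.Coprime p) :
    x = 1 := by
  obtain ⟨a, ha⟩ := h'
  exact mem_bot.1 (h.mem_of_pow_mem (hpq.pow_right a) (mem_bot.2 ha))

theorem QElt.dvd_card {q : ℕ} (hq : q.Prime) {x : G} (h : QElt q x) (hx : x ≠ 1) {S : Subgroup G}
    (hS : x ∈ S) : q ∣ Nat.card S := by
  obtain ⟨a, ha⟩ := h
  obtain ⟨j, _, hj⟩ := (Nat.dvd_prime_pow hq).1 (orderOf_dvd_of_pow_eq_one ha)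
  have hj0 : j ≠ 0 := by
    rintro rfl
    exact hx (orderOf_eq_one_iff.1 (by simpa using hj))
  exact (hj ▸ dvd_pow_self q hj0).trans (S.orderOf_dvd_natCard hS)

theorem qelt_of_mem {p : ℕ} {P : Subgroup G} (hP : IsPGroup p P) {x : G} (hx : x ∈ P) :
    QElt p x := by
  obtain ⟨k, hk⟩ := hP ⟨x, hx⟩
  exact ⟨k, congrArg Subtype.val hk⟩

theorem not_dvd_card_map [Finite G] {q : ℕ} (hq : q.Prime) {A : Subgroup G} {G' : Type*}
    [Group G'] (f : G →* G') (h : ∀ x ∈ A, QElt q x → f x = 1) : ¬ q ∣ Nat.card (A.map f) := by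
  intro hd
  have := Fact.mk hq
  have : Finite (A.map f) := Finite.of_surjective _ (f.subgroupMap_surjective A)
  obtain ⟨⟨_, x, hx, rfl⟩, ho⟩ := exists_prime_orderOf_dvd_card' q hd
  rw [← Subgroup.orderOf_coe] at ho
  obtain ⟨m, hm, hq'⟩ := exists_qpart hq x
  have h1 := h _ (A.pow_mem hx m) hq'
  rw [map_pow] at h1
  have h2 := orderOf_dvd_of_pow_eq_one h1
  simp only at ho
  rw [ho] at h2
  exact (Nat.Prime.coprime_iff_not_dvd hq).1 hm h2

theorem qelt_mem_of_forall [Finite G] {ι : Type*} [Finite ι] {H : ι → Subgroup G}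
    (hm : ∀ i j, i ≠ j → MP (H i) (H j)) (htop : ⨆ i, H i = ⊤) {q : ℕ} (hq : q.Prime)
    (N : Subgroup G) [N.Normal] (h : ∀ i, ∀ y ∈ H i, QElt q y → y ∈ N) {x : G} (hx : QElt q x) :
    x ∈ N := by
  by_contra hne
  rw [← QuotientGroup.eq_one_iff] at hne
  have h1 := (hx.map (QuotientGroup.mk' N)).dvd_card hq hne (mem_top _)
  rw [← map_top_of_surjective _ (QuotientGroup.mk'_surjective N), ← htop, Subgroup.map_iSup] at h1
  obtain ⟨i, hi⟩ := prime_dvd_iSup _ (fun i j hij => ((hm i j hij).map _).pm) hq h1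
  exact not_dvd_card_map hq _ (fun y hy hy' => (QuotientGroup.eq_one_iff y).2 (h i y hy hy')) hi

theorem eq_one_of_conj {p q : ℕ} (hpq : q.Coprime p) {y v w : G} (hy : QElt q y) (hw : QElt p w)
    (hc : y * w = w * y) (e : y * v * y⁻¹ = v * w) : w = 1 := by
  have key : ∀ j : ℕ, y ^ j * v * (y ^ j)⁻¹ = v * w ^ j := by
    intro j
    induction j with
    | zero => simp
    | succ j ih =>
      have hc' : y * w ^ j * y⁻¹ = w ^ j := by
        rw [(Commute.pow_right (show Commute y w from hc) j).eq, mul_inv_cancel_right]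
      calc y ^ (j + 1) * v * (y ^ (j + 1))⁻¹ = y * (y ^ j * v * (y ^ j)⁻¹) * y⁻¹ := by group
        _ = (y * v * y⁻¹) * (y * w ^ j * y⁻¹) := by rw [ih]; group
        _ = v * w ^ (j + 1) := by rw [e, hc']; group
  obtain ⟨a, ha⟩ := hy
  have := key (q ^ a)
  rw [ha] at this
  exact QElt.eq_one ⟨a, by simpa using this.symm⟩ hw hpq

theorem central_pair [Finite G] {p q : ℕ} (hp : p.Prime) (hq : q.Prime) (hpq : p ≠ q)
    {A B M : Subgroup G} [hM : M.Normal] (hMp : IsPGroup p M) (h : MP A B) {y : G} (hy : y ∈ A)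
    (hyq : QElt q y) (hc : ∀ u ∈ M ⊓ A, y * u = u * y) (hd : ¬ q ∣ p - 1) :
    ∀ v ∈ M ⊓ B, y * v = v * y := by
  have := Fact.mk hp
  have hcop : q.Coprime p := (Nat.coprime_primes hq hp).2 hpq.symm
  apply chain_induction
  · simp
  intro v hv r hr hrd ih
  obtain rfl : r = p := by
    obtain ⟨a, ha⟩ := qelt_of_mem hMp hv.1
    exact (Nat.prime_dvd_prime_iff_eq hr hp).1
      (hr.dvd_of_dvd_pow (hrd.trans (orderOf_dvd_of_pow_eq_one ha)))
  set V1 := (M ⊓ A) ⊔ zpowers (v ^ r) with hV1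
  have hfix : ∀ w ∈ V1, y * w = w * y := by
    have : V1 ≤ centralizer {y} := by
      apply sup_le
      · intro u hu
        rw [mem_centralizer_singleton_iff]; exact (hc u hu).symm
      · rw [zpowers_le, mem_centralizer_singleton_iff]; exact ih.symm
    intro w hw
    exact (mem_centralizer_singleton_iff.1 (this hw)).symm
  by_cases hv1 : v ∈ V1
  · exact hfix v hv1
  have hzM : zpowers v ≤ M := by simpa using hv.1
  have hpm : Pm (M ⊓ A) (zpowers v) := by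
    intro x hx z hz
    obtain ⟨z', hz', x', hx', e⟩ := h.1 (zpowers v) (by simpa using hv.2) x hx.2 z hz
    refine ⟨z', hz', x', ⟨?_, hx'⟩, e⟩
    have : x' = z'⁻¹ * (x * z) := by rw [e]; group
    rw [this]
    exact M.mul_mem (M.inv_mem (hzM hz')) (M.mul_mem hx.1 (hzM hz))
  have hzz : zpowers (v ^ r) ≤ zpowers v := by simp [npow_mem_zpowers]
  have hpm1 : Pm V1 (zpowers v) := hpm.sup_left (pm_of_le hzz)
  have hV1M : V1 ≤ M := sup_le inf_le_left (hzz.trans hzM)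
  have hVM : V1 ⊔ zpowers v ≤ M := sup_le hV1M hzM
  have hrel0 : (zpowers (v ^ r)).relIndex (zpowers v) = r := by
    have h1 := card_eq_mul_relIndex hzz
    rw [Nat.card_zpowers, Nat.card_zpowers, orderOf_pow' v hr.ne_zero, Nat.gcd_eq_right hrd] at h1
    obtain ⟨k, hk⟩ := hrd
    have hk0 : 0 < k := Nat.pos_of_ne_zero (by rintro rfl; exact (orderOf_pos v).ne' (by simpa using hk))
    rw [hk, Nat.mul_div_cancel_left k hr.pos, mul_comm r] at h1
    exact (Nat.eq_of_mul_eq_mul_left hk0 h1).symm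
  have hrel : V1.relIndex (V1 ⊔ zpowers v) = r := by
    rw [hpm1.relIndex_sup]
    have h1 : V1.relIndex (zpowers v) ∣ r :=
      hrel0 ▸ relIndex_dvd_of_le_left (zpowers v) (le_sup_right : zpowers (v ^ r) ≤ V1)
    rcases (Nat.dvd_prime hr).1 h1 with h2 | h2
    · exact absurd (relIndex_eq_one.1 h2 (mem_zpowers v)) hv1
    · exact h2
  have hN : (V1.subgroupOf (V1 ⊔ zpowers v)).Normal := by
    apply normal_of_index_eq_minFac_card
    change V1.relIndex _ = _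
    obtain ⟨e, he⟩ := IsPGroup.iff_card.1 (hMp.to_le hVM)
    have he0 : e ≠ 0 := by
      rintro rfl
      have h1 := V1.relIndex_dvd_card (V1 ⊔ zpowers v)
      rw [he, hrel, pow_zero, Nat.dvd_one] at h1
      exact hr.ne_one h1
    rw [hrel, he, hr.pow_minFac he0]
  have hvN : v ∈ normalizer (V1 : Set G) :=
    (normal_subgroupOf_iff_le_normalizer le_sup_left).1 hN (mem_sup_right (mem_zpowers v))
  obtain ⟨z, hz, w, hw, e⟩ := hpm.symm.mem_sup (g := y * v * y⁻¹)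
    (by rw [sup_comm]; exact conj_mem_sup h hy hv)
  obtain ⟨m, rfl⟩ := exists_nat_pow_of_mem_zpowers hz
  have hw1 : w ∈ V1 := mem_sup_left hw
  have key : ∀ j : ℕ, ∃ w' ∈ V1, y ^ j * v * (y ^ j)⁻¹ = v ^ m ^ j * w' := by
    intro j
    induction j with
    | zero => exact ⟨1, V1.one_mem, by simp⟩
    | succ j ihj =>
      obtain ⟨w', hw', e'⟩ := ihj
      obtain ⟨w'', hw'', e''⟩ := mul_pow_mem_normalizer ((normalizer (V1 : Set G)).pow_mem hvN m)
        hw1 (m ^ j)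
      refine ⟨w'' * w', V1.mul_mem hw'' hw', ?_⟩
      calc y ^ (j + 1) * v * (y ^ (j + 1))⁻¹ = y * (y ^ j * v * (y ^ j)⁻¹) * y⁻¹ := by group
        _ = (y * v ^ m ^ j * y⁻¹) * (y * w' * y⁻¹) := by rw [e']; group
        _ = (y * v * y⁻¹) ^ m ^ j * w' := by rw [conj_pow, hfix w' hw', mul_inv_cancel_right]
        _ = v ^ m ^ (j + 1) * (w'' * w') := by rw [e, e'', ← pow_mul, ← pow_succ', mul_assoc]
  have hvr : v ^ r ∈ V1 := mem_sup_right (mem_zpowers _)
  have hmod : ∀ n : ℕ, v⁻¹ * v ^ n ∈ V1 ↔ (n : ZMod r) = 1 := by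
    intro n
    have e1 : v⁻¹ * v ^ n = v ^ ((n : ℤ) - 1) := by group
    have e2 : (n : ZMod r) = 1 ↔ (r : ℤ) ∣ (n : ℤ) - 1 := by
      rw [← ZMod.intCast_zmod_eq_zero_iff_dvd]; push_cast; rw [sub_eq_zero]
    rw [e1, e2]
    constructor
    · intro h1
      by_contra hnd
      have hcp : IsCoprime (r : ℤ) ((n : ℤ) - 1) :=
        (Nat.prime_iff_prime_int.1 hr).irreducible.coprime_iff_not_dvd.2 hnd
      obtain ⟨a, b, hab⟩ := hcp
      apply hv1
      have : v = (v ^ r) ^ a * (v ^ ((n : ℤ) - 1)) ^ b := by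
        rw [← zpow_natCast, ← zpow_mul, ← zpow_mul, ← zpow_add, mul_comm (r : ℤ),
          mul_comm ((n : ℤ) - 1), hab, zpow_one]
      rw [this]
      exact V1.mul_mem (V1.zpow_mem hvr a) (V1.zpow_mem h1 b)
    · rintro ⟨c, hc⟩
      rw [hc, zpow_mul, zpow_natCast]
      exact V1.zpow_mem hvr c
  have hm1 : (m : ZMod r) = 1 := by
    obtain ⟨a, ha⟩ := hyq
    obtain ⟨w', hw', e'⟩ := key (q ^ a)
    rw [ha] at e'
    have h1 : v⁻¹ * v ^ m ^ q ^ a ∈ V1 := by
      have : v⁻¹ * v ^ m ^ q ^ a = w'⁻¹ := by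
        rw [eq_inv_iff_mul_eq_one, mul_assoc, ← e']; group
      rw [this]; exact V1.inv_mem hw'
    rw [hmod] at h1
    push_cast at h1
    have hm0 : (m : ZMod r) ≠ 0 := by
      intro h0
      rw [h0, zero_pow (pow_pos hq.pos a).ne'] at h1
      exact zero_ne_one h1
    have h2 := orderOf_dvd_of_pow_eq_one h1
    have h3 := orderOf_dvd_of_pow_eq_one (ZMod.pow_card_sub_one_eq_one hm0)
    have h4 : (q ^ a).Coprime (r - 1) := ((Nat.Prime.coprime_iff_not_dvd hq).2 hd).pow_left a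
    exact orderOf_eq_one_iff.1 (Nat.eq_one_of_dvd_coprimes h4 h2 h3)
  have hw2 : v⁻¹ * v ^ m * w ∈ V1 := V1.mul_mem ((hmod m).2 hm1) hw1
  have h5 := eq_one_of_conj (v := v) hcop hyq (qelt_of_mem hMp (hV1M hw2)) (hfix _ hw2)
    (by rw [e]; group)
  have h6 : y * v * y⁻¹ = v := by
    rw [mul_assoc, inv_mul_eq_one] at h5
    rw [e, ← h5]
  calc y * v = y * v * y⁻¹ * y := by group
    _ = v * y := by rw [h6]

theorem central_family [Finite G] {ι : Type*} {H : ι → Subgroup G}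
    (hm : ∀ i j, i ≠ j → MP (H i) (H j)) {p q : ℕ} (hp : p.Prime) (hq : q.Prime) (hpq : p ≠ q)
    (hΓ : ∀ i j, i ≠ j → p ∣ Nat.card (H i) → q ∣ Nat.card (H j) → ¬ q ∣ p - 1)
    {M : Subgroup G} [hM : M.Normal] (hMp : IsPGroup p M) (hMf : M ≤ ⨆ k, M ⊓ H k) {i : ι} {y : G}
    (hy : y ∈ H i) (hyq : QElt q y) (hc : ∀ u ∈ M ⊓ H i, y * u = u * y) :
    y ∈ centralizer (M : Set G) := by
  have : (⨆ k, M ⊓ H k) ≤ centralizer {y} := by
    apply iSup_le
    intro k v hv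
    rw [mem_centralizer_singleton_iff]
    by_cases hik : i = k
    · subst hik; exact (hc v hv).symm
    by_cases hv1 : v = 1
    · simp [hv1]
    by_cases hy1 : y = 1
    · simp [hy1]
    exact (central_pair hp hq hpq hMp (hm i k hik) hy hyq hc (hΓ k i (Ne.symm hik)
      ((qelt_of_mem hMp hv.1).dvd_card hp hv1 hv.2) (hyq.dvd_card hq hy1 hy)) v hv).symm
  intro v hv
  exact mem_centralizer_singleton_iff.1 (this (hMf hv))

end Pool.Agent.P.MP_11c1cd_al
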