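import Pool.Agent.P.MP_11c1cd_al.Step
import Pool.Agent.P.MP_11c1cd_al.Baer

namespace Pool.Agent.P.MP_11c1cd_al

open Pointwise Subgroup

variable {G : Type*} [Group G]

theorem step_top [Finite G] {A B : Subgroup G} (h : MP A B) {b : G} (hb : b ∈ B) {r : ℕ}
    (hr : r.Prime) (htop : A ⊔ zpowers b = ⊤) :
    A ⊓ B ≤ (A ⊔ zpowers (b ^ r)).normalCore ∧
    (∀ s : ℕ, s.Prime → r ≤ s → ∀ x ∈ A, ∀ k : ℕ, x ^ s ^ k = 1 →
      x ∈ (A ⊔ zpowers (b ^ r)).normalCore) ∧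
    (∀ Z : Subgroup G, ⁅Z, Z⁆ = Z → Z ≤ (A ⊔ zpowers (b ^ r)).normalCore) := by
  set K := (A ⊔ zpowers (b ^ r)).normalCore with hK
  have hpm : Pm A (zpowers b) := h.1 _ (by simpa using hb)
  have hbK : b ^ r ∈ K := by
    intro g
    obtain ⟨a, ha, _, ⟨k, rfl⟩, rfl⟩ := hpm.mem_sup (htop ▸ mem_top g)
    have : a * b ^ k * b ^ r * (a * b ^ k)⁻¹ = a * b ^ r * a⁻¹ := by group
    simp only
    rw [this]
    exact mul_mem (mul_mem_sup ha (mem_zpowers _)) (mem_sup_left (A.inv_mem ha))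
  set f := QuotientGroup.mk' K with hf
  have hsurj : Function.Surjective f := QuotientGroup.mk'_surjective K
  have hker : ∀ x, f x = 1 ↔ x ∈ K := fun x => QuotientGroup.eq_one_iff x
  obtain ⟨h1, h2, h3⟩ := step_free (h.map f) (b := f b) ⟨b, hb, rfl⟩ hr
    (by rw [← map_pow, hker]; exact hbK)
    (by rw [← MonoidHom.map_zpowers, ← Subgroup.map_sup, htop, map_top_of_surjective _ hsurj])
    (by
      rw [eq_bot_iff]
      intro z hz
      obtain ⟨z, rfl⟩ := hsurj z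
      rw [mem_bot, hker]
      have : ((A.map f).normalCore.comap f) ≤ K := by
        refine normal_le_normalCore.2 ?_
        refine (comap_mono (normalCore_le _)).trans ?_
        rw [comap_map_eq, hf, QuotientGroup.ker_mk']
        exact sup_le le_sup_left (normalCore_le _)
      exact this hz)
  refine ⟨fun x hx => ?_, fun s hs hrs x hx k hk => ?_, fun Z hZ x hx => ?_⟩
  · rw [← hker, ← mem_bot, ← h1]
    exact ⟨⟨x, hx.1, rfl⟩, ⟨x, hx.2, rfl⟩⟩
  · rw [← hker]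
    by_contra hne
    apply h2 s hs hrs
    have hd : orderOf (f x) ∣ s ^ k := orderOf_dvd_of_pow_eq_one (by rw [← map_pow, hk, map_one])
    obtain ⟨j, _, hj⟩ := (Nat.dvd_prime_pow hs).1 hd
    have hj0 : j ≠ 0 := by
      rintro rfl
      exact hne (orderOf_eq_one_iff.1 (by simpa using hj))
    exact (hj ▸ dvd_pow_self s hj0).trans ((A.map f).orderOf_dvd_natCard ⟨x, hx, rfl⟩)
  · rw [← hker, ← mem_bot, ← h3 (Z.map f) (by rw [← map_commutator, hZ])]
    exact ⟨x, hx, rfl⟩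

theorem step [Finite G] {A B : Subgroup G} (h : MP A B) {b : G} (hb : b ∈ B) {r : ℕ}
    (hr : r.Prime) : ∃ K : Subgroup G, K ≤ A ⊔ zpowers (b ^ r) ∧
      A ⊔ zpowers b ≤ normalizer (K : Set G) ∧ A ⊓ B ≤ K ∧
      (∀ s : ℕ, s.Prime → r ≤ s → ∀ x ∈ A, ∀ k : ℕ, x ^ s ^ k = 1 → x ∈ K) ∧
      (∀ Z : Subgroup G, Z ≤ A ⊔ zpowers b → ⁅Z, Z⁆ = Z → Z ≤ K) := by
  set U := A ⊔ zpowers b with hU
  have hAU : A ≤ U := le_sup_left
  let b' : U := ⟨b, mem_sup_right (mem_zpowers b)⟩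
  have hmap : ∀ c : U, (A.subgroupOf U ⊔ zpowers c).map U.subtype = A ⊔ zpowers (c : G) := by
    intro c
    rw [Subgroup.map_sup, subgroupOf_map_subtype, inf_of_le_left hAU, MonoidHom.map_zpowers]
    rfl
  obtain ⟨h1, h2, h3⟩ := step_top (h.subgroupOf U) (b := b') hb hr (by
    apply map_injective U.subtype_injective
    rw [hmap, ← MonoidHom.range_eq_map, range_subtype])
  refine ⟨(A.subgroupOf U ⊔ zpowers (b' ^ r)).normalCore.map U.subtype, ?_, ?_, ?_, ?_, ?_⟩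
  · exact (map_mono (normalCore_le _)).trans (hmap _).le
  · rw [le_normalizer_iff]
    rintro y hy _ ⟨z, hz, rfl⟩
    exact ⟨_, (normalCore_normal _).conj_mem z hz ⟨y, hy⟩, rfl⟩
  · intro x hx
    exact ⟨⟨x, hAU hx.1⟩, h1 hx, rfl⟩
  · intro s hs hrs x hx k hk
    exact ⟨⟨x, hAU hx⟩, h2 s hs hrs ⟨x, hAU hx⟩ hx k (Subtype.ext hk), rfl⟩
  · intro Z hZ hZ' x hx
    refine ⟨⟨x, hZ hx⟩, h3 (Z.subgroupOf U) ?_ hx, rfl⟩
    apply map_injective U.subtype_injective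
    rw [map_commutator, subgroupOf_map_subtype, inf_of_le_left hZ, hZ']

theorem chain_induction [Finite G] {B : Subgroup G} {P : G → Prop} (h1 : P 1)
    (hs : ∀ b ∈ B, ∀ r : ℕ, r.Prime → r ∣ orderOf b → P (b ^ r) → P b) : ∀ b ∈ B, P b := by
  suffices ∀ m : ℕ, ∀ b ∈ B, orderOf b = m → P b from fun b hb => this _ b hb rfl
  intro m
  induction m using Nat.strong_induction_on with
  | _ m ih =>
  intro b hb hm
  by_cases hm1 : m = 1
  · rw [hm1, orderOf_eq_one_iff] at hm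
    exact hm ▸ h1
  have hp := Nat.minFac_prime hm1
  have hd : m.minFac ∣ orderOf b := hm ▸ Nat.minFac_dvd m
  refine hs b hb _ hp hd (ih (m / m.minFac) ?_ _ (B.pow_mem hb _) ?_)
  · exact Nat.div_lt_self (hm ▸ orderOf_pos b) hp.one_lt
  · rw [orderOf_pow' b hp.ne_zero, Nat.gcd_eq_right hd, hm]

theorem MP.perfect_le [Finite G] {A B : Subgroup G} (h : MP A B) :
    ∀ b ∈ B, ∀ Z : Subgroup G, Z ≤ A ⊔ zpowers b → ⁅Z, Z⁆ = Z → Z ≤ A := by
  apply chain_induction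
  · intro Z hZ _
    simpa using hZ
  · intro b hb r hr _ ih Z hZ hZ'
    obtain ⟨K, hK1, -, -, -, hK5⟩ := step h hb hr
    exact ih Z ((hK5 Z hZ hZ').trans hK1) hZ'

theorem MP.le_Op [Finite G] {A B L : Subgroup G} (h : MP A B) {l : ℕ} [Fact l.Prime]
    (hL : L ≤ Op l A) (hA : A ≤ normalizer (L : Set G))
    (hs : ∀ r : ℕ, r.Prime → r ∣ Nat.card B → ∀ K : Subgroup G, A ⊓ B ≤ K →
      (∀ s : ℕ, s.Prime → r ≤ s → ∀ x ∈ A, ∀ k : ℕ, x ^ s ^ k = 1 → x ∈ K) → L ≤ K) :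
    L ≤ Op l (A ⊔ B) := by
  have key : ∀ b ∈ B, L ≤ Op l (A ⊔ zpowers b) := by
    apply chain_induction
    · simpa using hL
    · intro b hb r hr hd ih
      obtain ⟨K, hK1, hK2, hK3, hK4, -⟩ := step h hb hr
      have hLK := hs r hr (hd.trans (B.orderOf_dvd_natCard hb)) K hK3 hK4
      have hle : A ⊔ zpowers (b ^ r) ≤ A ⊔ zpowers b :=
        sup_le_sup_left (by simp [npow_mem_zpowers]) _
      have h1 : Op l (A ⊔ zpowers (b ^ r)) ⊓ K ≤ Op l K := by
        apply Pool.Agent.P.MP_11c1cd_al.le_Op inf_le_right _ (isPGroup_Op _ _).to_inf_left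
        exact (le_inf (hK1.trans (le_normalizer_Op _ _)) le_normalizer).trans
          inf_normalizer_le_normalizer_inf
      have h2 : Op l K ≤ Op l (A ⊔ zpowers b) :=
        Pool.Agent.P.MP_11c1cd_al.le_Op (((Op_le _ _).trans hK1).trans hle)
          (hK2.trans (normalizer_le_normalizer_Op _ _)) (isPGroup_Op _ _)
      exact ((le_inf ih hLK).trans h1).trans h2
  apply le_Op_of_pairs ((hL.trans (Op_le _ _)).trans le_sup_left)
  intro x hx g hg
  obtain ⟨b, hb, a, ha, rfl⟩ := h.pm.symm.mem_sup (g := g) (by rw [sup_comm]; exact hg)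
  refine ⟨_, isPGroup_Op l (A ⊔ zpowers b), key b hb hx, ?_⟩
  have : b * a * x * (b * a)⁻¹ = b * (a * x * a⁻¹) * b⁻¹ := by group
  rw [this]
  exact (mem_normalizer_iff.1 (le_normalizer_Op l _ (mem_sup_right (mem_zpowers b))) _).1
    (key b hb ((mem_normalizer_iff.1 (hA ha) x).1 hx))

end Pool.Agent.P.MP_11c1cd_al
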