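import Mathlib

/-!
Definitions for arithmetic graphs of finite groups.  A graph is a pair (vertex set, edge set);
the order and the suprema on the product type are componentwise inclusion and union.
-/

namespace Pool.Agent.P.MP_11c1cd_al

open Pointwise

/-- The set of primes dividing the natural number `m`. -/
def piN (m : ℕ) : Set ℕ := {p | p.Prime ∧ p ∣ m}

/-- The set of primes dividing the order of the group `X`. -/
def piG (X : Type*) [Group X] : Set ℕ := piN (Nat.card X)

/-- `X` is `p`-nilpotent: it has a normal subgroup of order prime to `p` and `p`-power index. -/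
def IsPNilpotent (p : ℕ) (X : Type*) [Group X] : Prop :=
  ∃ K : Subgroup X, K.Normal ∧ ¬ p ∣ Nat.card K ∧ ∃ k : ℕ, K.index = p ^ k

/-- The subgroup `O_{p',p}(X)`: the join of all normal `p`-nilpotent subgroups of `X`. -/
def Opp (p : ℕ) (X : Type*) [Group X] : Subgroup X :=
  sSup {F : Subgroup X | F.Normal ∧ IsPNilpotent p F}

/-- The Hawkes graph: `(p, q)` is an edge iff `q` divides the order of `X / O_{p',p}(X)`. -/
def hawkes (X : Type*) [Group X] : Set ℕ × Set (ℕ × ℕ) :=
  (piG X, {e | e.1 ∈ piG X ∧ e.2 ∈ piN (Opp e.1 X).index})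

/-- A Schmidt group: not nilpotent, every proper subgroup nilpotent. -/
def IsSchmidt (S : Type*) [Group S] : Prop :=
  ¬ Group.IsNilpotent S ∧ ∀ T : Subgroup S, T ≠ ⊤ → Group.IsNilpotent T

/-- A Schmidt `(p, q)`-group. -/
def IsSchmidtPQ (p q : ℕ) (S : Type*) [Group S] : Prop :=
  IsSchmidt S ∧ piG S = {p, q} ∧ ∃ P : Sylow p S, (P : Subgroup S).Normal

/-- The N-critical graph: `(p, q)` is an edge iff some subgroup is a Schmidt `(p, q)`-group. -/
def ncGraph (X : Type*) [Group X] : Set ℕ × Set (ℕ × ℕ) :=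
  (piG X, {e | ∃ S : Subgroup X, IsSchmidtPQ e.1 e.2 S})

/-- The edges of the graph `Γ(A, B)`. -/
def gammaEdges {G : Type*} [Group G] (A B : Subgroup G) : Set (ℕ × ℕ) :=
  {e | (e.1 ∈ piG A ∧ e.2 ∈ piG B ∧ e.2 ∈ piN (e.1 - 1)) ∨
    (e.1 ∈ piG B ∧ e.2 ∈ piG A ∧ e.2 ∈ piN (e.1 - 1))}

/-- The graph `Γ(A, B)`; its vertices are the primes occurring in its edges. -/
def gamma {G : Type*} [Group G] (A B : Subgroup G) : Set ℕ × Set (ℕ × ℕ) :=
  ({r | ∃ e ∈ gammaEdges A B, r = e.1 ∨ r = e.2}, gammaEdges A B)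

/-- The graph of all loops `(p, p)` at primes dividing the order of `X`. -/
def loops (X : Type*) [Group X] : Set ℕ × Set (ℕ × ℕ) :=
  (piG X, {e | e.1 = e.2 ∧ e.1 ∈ piG X})

/-- Two subgroups permute: `XY = YX` as sets. -/
def Permutes {G : Type*} [Group G] (X Y : Subgroup G) : Prop :=
  (X : Set G) * (Y : Set G) = (Y : Set G) * (X : Set G)

/-- `A` and `B` are mutually permutable. -/
def MutuallyPermutable {G : Type*} [Group G] (A B : Subgroup G) : Prop :=
  (∀ Y : Subgroup G, Y ≤ B → Permutes A Y) ∧ (∀ X : Subgroup G, X ≤ A → Permutes X B)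

end Pool.Agent.P.MP_11c1cd_al
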