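import Pool.Agent.P.MP_11c1cd_al.Central

namespace Pool.Agent.P.MP_11c1cd_al

open Pointwise Subgroup

universe u

variable {G : Type*} [Group G]

/-- The largest subgroup of `Y` of order prime to `p` normalised by `Y`. -/
def Oc (p : ℕ) (Y : Subgroup G) : Subgroup G :=
  sSup {M | M ≤ Y ∧ Y ≤ normalizer (M : Set G) ∧ ¬ p ∣ Nat.card M}

theorem le_Oc {p : ℕ} {Y M : Subgroup G} (h1 : M ≤ Y) (h2 : Y ≤ normalizer (M : Set G))
    (h3 : ¬ p ∣ Nat.card M) : M ≤ Oc p Y := le_sSup ⟨h1, h2, h3⟩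

theorem pm_of_le_normalizer {X Y : Subgroup G} (h : X ≤ normalizer (Y : Set G)) : Pm X Y :=
  fun x hx y hy => ⟨x * y * x⁻¹, (mem_normalizer_iff.1 (h hx) y).1 hy, x, hx, by group⟩

theorem Oc_spec [Finite G] {p : ℕ} (hp : p.Prime) (Y : Subgroup G) :
    Oc p Y ≤ Y ∧ Y ≤ normalizer (Oc p Y : Set G) ∧ ¬ p ∣ Nat.card (Oc p Y) := by
  obtain ⟨M, hM⟩ := (Set.toFinite {M : Subgroup G | M ≤ Y ∧ Y ≤ normalizer (M : Set G) ∧
    ¬ p ∣ Nat.card M}).exists_maximal ⟨⊥, bot_le, by rw [normalizer_eq_top]; exact le_top,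
      by rw [card_bot, Nat.dvd_one]; exact hp.ne_one⟩
  have : Oc p Y = M := by
    apply le_antisymm _ (le_sSup hM.1)
    apply sSup_le
    intro M' hM'
    refine le_sup_right.trans (hM.2 (y := M ⊔ M') ⟨sup_le hM.1.1 hM'.1, ?_, ?_⟩ le_sup_left)
    · exact (le_inf hM.1.2.1 hM'.2.1).trans (normalizer_inf_normalizer_le_normalizer_sup M M')
    · intro hd
      rcases (Nat.Prime.dvd_mul hp).1
        (hd.trans (pm_of_le_normalizer (hM.1.1.trans hM'.2.1)).card_sup_dvd) with h | h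
      · exact hM.1.2.2 h
      · exact hM'.2.2 h
  rw [this]; exact hM.1

theorem normalizer_le_normalizer_Oc [Finite G] {p : ℕ} (hp : p.Prime) (Y : Subgroup G) :
    normalizer (Y : Set G) ≤ normalizer (Oc p Y : Set G) := by
  intro g hg
  apply mem_normalizer_fintype
  intro m hm
  have : (Oc p Y).map (MulAut.conj g).toMonoidHom ≤ Oc p Y := by
    apply le_Oc
    · rintro _ ⟨x, hx, rfl⟩
      exact (mem_normalizer_iff.1 hg x).1 ((Oc_spec hp Y).1 hx)
    · rw [le_normalizer_iff]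
      rintro y hy _ ⟨x, hx, rfl⟩
      have hy' : g⁻¹ * y * g ∈ Y := (mem_normalizer_iff''.1 hg y).1 hy
      refine ⟨_, (mem_normalizer_iff.1 ((Oc_spec hp Y).2.1 hy') x).1 hx, ?_⟩
      simp only [MulEquiv.toMonoidHom_eq_coe, MonoidHom.coe_coe, MulAut.conj_apply]
      group
    · exact fun hd => (Oc_spec hp Y).2.2 (hd.trans (card_map_dvd _ _))
  exact this ⟨m, hm, rfl⟩

theorem Oc_normal [Finite G] {p : ℕ} (hp : p.Prime) (Y : Subgroup G) [Y.Normal] :
    (Oc p Y).Normal := by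
  rw [← normalizer_eq_top_iff, eq_top_iff, ← normalizer_eq_top Y]
  exact normalizer_le_normalizer_Oc hp Y

/-- All `q`-elements of `A` lie in the largest normal `p'`-subgroup of `A`. -/
def YY (p q : ℕ) (A : Subgroup G) : Prop := ∀ x ∈ A, QElt q x → x ∈ Oc p A

theorem map_Oc_le [Finite G] {p : ℕ} (hp : p.Prime) (A : Subgroup G) {G' : Type*} [Group G']
    (f : G →* G') : (Oc p A).map f ≤ Oc p (A.map f) :=
  le_Oc (map_mono (Oc_spec hp A).1) ((map_mono (Oc_spec hp A).2.1).trans (le_normalizer_map f))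
    fun hd => (Oc_spec hp A).2.2 (hd.trans (card_map_dvd _ _))

theorem YY.map [Finite G] {p q : ℕ} (hp : p.Prime) (hq : q.Prime) {A : Subgroup G}
    (h : YY p q A) {G' : Type*} [Group G'] (f : G →* G') : YY p q (A.map f) := by
  rintro _ ⟨x, hx, rfl⟩ hxq
  obtain ⟨m, hm, hm'⟩ := exists_qpart hq x
  apply hxq.mem_of_pow_mem hm
  exact map_Oc_le hp A f ⟨x ^ m, h _ (A.pow_mem hx m) hm', map_pow f x m⟩

theorem commute_of_inf_bot {M K : Subgroup G} {u y : G} (hu : u ∈ M) (hy : y ∈ K)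
    (h1 : y ∈ normalizer (M : Set G)) (h2 : u ∈ normalizer (K : Set G)) (h : M ⊓ K = ⊥) :
    y * u = u * y := by
  have : u⁻¹ * (y * u * y⁻¹) = 1 := by
    rw [← mem_bot, ← h]
    refine ⟨M.mul_mem (M.inv_mem hu) ((mem_normalizer_iff.1 h1 u).1 hu), ?_⟩
    have : u⁻¹ * (y * u * y⁻¹) = (u⁻¹ * y * u) * y⁻¹ := by group
    rw [this]
    exact K.mul_mem ((mem_normalizer_iff''.1 h2 y).1 hy) (K.inv_mem hy)
  rw [inv_mul_eq_one] at this
  calc y * u = y * u * y⁻¹ * y := by group
    _ = u * y := by rw [← this]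

theorem mem_Oc_of_central [Finite G] {p q : ℕ} (hp : p.Prime) (hcop : q.Coprime p)
    (Z : Subgroup G) (hZ : IsPGroup p Z) (hc : Z ≤ center G) (hi : ¬ p ∣ Z.index) {x : G}
    (hx : QElt q x) : x ∈ Oc p (⊤ : Subgroup G) := by
  have := Fact.mk hp
  have hn : Z.Normal := ⟨fun z hz g => by
    rw [mem_center_iff.1 (hc hz) g, mul_inv_cancel_right]; exact hz⟩
  obtain ⟨e, he⟩ := IsPGroup.iff_card.1 hZ
  obtain ⟨J, hJ⟩ := exists_right_complement'_of_coprime (N := Z)
    (by rw [he]; exact ((Nat.Prime.coprime_iff_not_dvd hp).2 hi).pow_left e)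
  have hdec : ∀ g : G, ∃ z ∈ Z, ∃ j ∈ J, g = z * j := by
    intro g
    obtain ⟨⟨z, j⟩, h⟩ := hJ.2 g
    exact ⟨z, z.2, j, j.2, h.symm⟩
  have hJO : J ≤ Oc p ⊤ := by
    refine le_Oc le_top ?_ (by rw [← hJ.symm.index_eq_card]; exact hi)
    rw [le_normalizer_iff]
    intro g _ j hj
    obtain ⟨z, hz, j', hj', rfl⟩ := hdec g
    have h1 := mem_center_iff.1 (hc hz) (j' * j * j'⁻¹)
    have : z * j' * j * (z * j')⁻¹ = j' * j * j'⁻¹ := by
      calc z * j' * j * (z * j')⁻¹ = z * (j' * j * j'⁻¹) * z⁻¹ := by group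
        _ = _ := by rw [← h1]; group
    rw [this]
    exact J.mul_mem (J.mul_mem hj' hj) (J.inv_mem hj')
  obtain ⟨z, hz, j, hj, rfl⟩ := hdec x
  obtain ⟨a, ha⟩ := qelt_of_mem hZ hz
  apply hx.mem_of_pow_mem (hcop.pow_right a)
  have : Commute z j := (mem_center_iff.1 (hc hz) j).symm
  rw [this.mul_pow, ha, one_mul]
  exact hJO (J.pow_mem hj _)

theorem hawkes_main {ι : Type*} [Finite ι] {p q : ℕ} (hp : p.Prime) (hq : q.Prime)
    (hpq : p ≠ q) :
    ∀ (n : ℕ) (G : Type u) [Group G] [Finite G], Nat.card G = n → ∀ H : ι → Subgroup G,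
      (∀ i j, i ≠ j → MP (H i) (H j)) → ⨆ i, H i = ⊤ → (∀ i, YY p q (H i)) →
      (∀ i j, i ≠ j → p ∣ Nat.card (H i) → q ∣ Nat.card (H j) → ¬ q ∣ p - 1) →
      YY p q (⊤ : Subgroup G) := by
  intro n
  induction n using Nat.strong_induction_on with
  | _ n ih =>
  intro G _ _ hn H hm htop hY hΓ x _ hxq
  have := Fact.mk hp
  have hcop : q.Coprime p := (Nat.coprime_primes hq hp).2 hpq.symm
  by_cases hG : Nat.card G = 1
  · have := (Nat.card_eq_one_iff_unique.1 hG).1
    rw [Subsingleton.elim x 1]; exact one_mem _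
  obtain ⟨M, hM, hM0, hcase⟩ := structure_theorem hm htop hG
  have hlt : Nat.card (G ⧸ M) < n := by
    rw [← hn, card_eq_card_quotient_mul_card_subgroup M]
    exact lt_mul_of_one_lt_right Nat.card_pos ((one_lt_card_iff_ne_bot M).2 hM0)
  have hQ := ih _ hlt (G ⧸ M) rfl (fun i => (H i).map (QuotientGroup.mk' M))
    (fun i j hij => (hm i j hij).map _)
    (by rw [← Subgroup.map_iSup, htop, map_top_of_surjective _ (QuotientGroup.mk'_surjective M)])
    (fun i => (hY i).map hp hq _)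
    (fun i j hij h1 h2 => hΓ i j hij (h1.trans (card_map_dvd _ _)) (h2.trans (card_map_dvd _ _)))
    (QuotientGroup.mk' M x) (mem_top _) (hxq.map _)
  have hKn := Oc_normal hp (⊤ : Subgroup (G ⧸ M))
  set J := (Oc p (⊤ : Subgroup (G ⧸ M))).comap (QuotientGroup.mk' M) with hJ
  have hxJ : x ∈ J := hQ
  have hrel : ∀ Y : Subgroup G, Y ≤ J → ¬ p ∣ M.relIndex Y := by
    intro Y hYJ hd
    have h1 := relIndex_ker Y (QuotientGroup.mk' M)
    rw [QuotientGroup.ker_mk'] at h1
    rw [h1] at hd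
    exact (Oc_spec hp _).2.2 (hd.trans (card_dvd_of_le (map_le_iff_le_comap.2 hYJ)))
  have hMtop : ∀ g : G, g ∈ normalizer (M : Set G) := fun g => by
    rw [normalizer_eq_top]; trivial
  by_cases hpM : p ∣ Nat.card M
  swap
  · have hMJ : M ≤ J := by
      intro m hm'
      rw [hJ, mem_comap, QuotientGroup.mk'_apply, (QuotientGroup.eq_one_iff m).2 hm']
      exact one_mem _
    refine le_Oc le_top (by rw [normalizer_eq_top]) ?_ hxJ
    rw [card_eq_mul_relIndex hMJ]
    exact hp.not_dvd_mul hpM (hrel J le_rfl)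
  have key : x ∈ centralizer (M : Set G) ∧
      IsPGroup p (M ⊓ centralizer (M : Set G) : Subgroup G) := by
    rcases hcase with ⟨l, hl, hMl, hMf⟩ | ⟨hmin, hO, hdich⟩
    · have := Fact.mk hl
      obtain ⟨e, he⟩ := IsPGroup.iff_card.1 hMl
      obtain rfl : p = l := (Nat.prime_dvd_prime_iff_eq hp hl).1 (hp.dvd_of_dvd_pow (he ▸ hpM))
      refine ⟨?_, hMl.to_inf_left⟩
      apply qelt_mem_of_forall hm htop hq _ _ hxq
      intro i y hy hyq
      refine central_family hm hp hq hpq hΓ hMl hMf hy hyq (fun u hu => ?_)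
      refine commute_of_inf_bot hu.1 (hY i y hy hyq) (hMtop y) ((Oc_spec hp _).2.1 hu.2) ?_
      rw [eq_bot_iff]
      intro z hz
      by_contra hz1
      exact (Oc_spec hp _).2.2 ((qelt_of_mem hMl hz.1).dvd_card hp hz1 hz.2)
    · constructor
      · apply qelt_mem_of_forall hm htop hq _ _ hxq
        intro i y hy hyq u hu
        rcases hdich i with hi | hi
        · refine (commute_of_inf_bot hu (hY i y hy hyq) (hMtop y)
            ((Oc_spec hp _).2.1 (hi hu)) ?_).symm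
          have h1 : M ⊓ Oc p (H i) ≤ Oc p M :=
            le_Oc inf_le_left ((le_inf le_normalizer (hi.trans (Oc_spec hp _).2.1)).trans
              inf_normalizer_le_normalizer_inf)
              fun hd => (Oc_spec hp _).2.2 (hd.trans (card_dvd_of_le inf_le_right))
          rcases hmin _ (Oc_normal hp M) (Oc_spec hp M).1 with h2 | h2
          · rwa [h2, le_bot_iff] at h1
          · exact absurd (h2.symm ▸ hpM) (Oc_spec hp M).2.2
        · exact (hi y hy u hu).symm
      · rcases hmin (M ⊓ centralizer (M : Set G)) inferInstance inf_le_left with h2 | h2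
        · rw [h2]; exact IsPGroup.of_bot
        · exfalso
          obtain ⟨l, hl, z, hz, hz1, hzp⟩ := exists_zpowers_prime hM0
          have hle : zpowers z ≤ M := by simpa using hz
          have := le_Op hle (le_normalizer_iff.2 fun g hg w hw => by
            rw [← (h2.ge hg).2 w (hle hw), mul_inv_cancel_right]; exact hw) hzp
          rw [hO l hl, le_bot_iff, zpowers_eq_bot] at this
          exact hz1 this
  set J1 := J ⊓ centralizer (M : Set G) with hJ1
  have hx1 : x ∈ J1 := ⟨hxJ, key.1⟩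
  have h1 := mem_Oc_of_central (G := J1) hp hcop (M.subgroupOf J1)
    ((key.2.comap_subtype (K := J1)).to_le fun z hz => ⟨hz, z.2.2⟩)
    (fun z hz => mem_center_iff.2 fun g => Subtype.ext (g.2.2 z hz).symm)
    (hrel J1 inf_le_left) (x := ⟨x, hx1⟩) (by
      obtain ⟨a, ha⟩ := hxq
      exact ⟨a, Subtype.ext ha⟩)
  have h2 := map_Oc_le hp (⊤ : Subgroup J1) J1.subtype ⟨_, h1, rfl⟩
  rw [← MonoidHom.range_eq_map, range_subtype] at h2
  have := Oc_normal hp J1
  exact le_Oc le_top (by rw [normalizer_eq_top]) (Oc_spec hp J1).2.2 h2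

theorem not_dvd_index_of_YY [Finite G] {p q : ℕ} (hp : p.Prime) (hq : q.Prime)
    (h : YY p q (⊤ : Subgroup G)) : ¬ q ∣ (Opp p G).index := by
  have := Oc_normal hp (⊤ : Subgroup G)
  have hle : Oc p ⊤ ≤ Opp p G :=
    le_sSup ⟨this, ⊤, inferInstance, by rw [card_top]; exact (Oc_spec hp _).2.2, 0, by simp⟩
  intro hd
  apply not_dvd_card_map hq (A := ⊤) (QuotientGroup.mk' (Oc p (⊤ : Subgroup G)))
    (fun x hx hx' => (QuotientGroup.eq_one_iff x).2 (h x hx hx'))
  rw [map_top_of_surjective _ (QuotientGroup.mk'_surjective _), card_top]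
  exact hd.trans (index_dvd_of_le hle)

theorem YY_of_not_dvd_index [Finite G] {p q : ℕ} (hp : p.Prime) (hq : q.Prime) (hpq : p ≠ q)
    (h : ¬ q ∣ (Opp p G).index) : YY p q (⊤ : Subgroup G) := by
  have := Fact.mk hp
  have hcop : q.Coprime p := (Nat.coprime_primes hq hp).2 hpq.symm
  have hO := Oc_normal hp (⊤ : Subgroup G)
  have hn : (Opp p G).Normal := by
    rw [← normalizer_eq_top_iff, eq_top_iff, le_normalizer_iff]
    intro g _
    have : Opp p G ≤ (Opp p G).comap (MulAut.conj g).toMonoidHom := by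
      apply sSup_le
      intro F hF z hz
      exact (le_sSup hF : F ≤ Opp p G) (hF.1.conj_mem z hz g)
    exact fun z hz => this hz
  intro x _ hxq
  have hx : x ∈ Opp p G :=
    hxq.mem_of_pow_mem ((Nat.Prime.coprime_iff_not_dvd hq).2 h) ((Opp p G).pow_index_mem x)
  set f := QuotientGroup.mk' (Oc p (⊤ : Subgroup G)) with hf
  have hle : Opp p G ≤ (Op p ⊤).comap f := by
    apply sSup_le
    rintro F ⟨hF, K, hK, hK1, k, hk⟩
    rw [← map_le_iff_le_comap]
    have := hF.map f (QuotientGroup.mk'_surjective _)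
    refine le_Op le_top (by rw [normalizer_eq_top]) ?_
    have hKO : K.map F.subtype ≤ Oc p ⊤ := by
      refine le_Oc le_top ?_ fun hd => hK1 (hd.trans (card_map_dvd _ _))
      rw [le_normalizer_iff]
      rintro g - _ ⟨z, hz, rfl⟩
      let w : F := ⟨g * z * g⁻¹, hF.conj_mem z z.2 g⟩
      refine ⟨w, ?_, rfl⟩
      have h1 : w ^ Nat.card K = 1 := by
        apply Subtype.ext
        have h2 : z ^ Nat.card K = 1 :=
          orderOf_dvd_iff_pow_eq_one.1 (K.orderOf_dvd_natCard hz)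
        change (g * z * g⁻¹) ^ Nat.card K = 1
        rw [conj_pow, ← Subgroup.coe_pow, h2]; simp
      have h3 : w ∈ zpowers (w ^ K.index) := by
        rw [mem_zpowers_pow_iff, hk]
        exact Nat.Coprime.coprime_dvd_right (orderOf_dvd_of_pow_eq_one h1)
          (((Nat.Prime.coprime_iff_not_dvd hp).2 hK1).pow_left k)
      exact (show zpowers (w ^ K.index) ≤ K by simpa using K.pow_index_mem w) h3
    rintro ⟨_, z, hz, rfl⟩
    refine ⟨k, Subtype.ext ?_⟩
    change f z ^ p ^ k = 1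
    rw [← map_pow, hf, QuotientGroup.mk'_apply, QuotientGroup.eq_one_iff, ← hk]
    exact hKO ⟨_, K.pow_index_mem ⟨z, hz⟩, rfl⟩
  have h1 : f x = 1 := (hxq.map f).eq_one (qelt_of_mem (isPGroup_Op p ⊤) (hle hx)) hcop
  exact (QuotientGroup.eq_one_iff x).1 h1

theorem YY_of_top [Finite G] {p q : ℕ} (hp : p.Prime) (hq : q.Prime) {A : Subgroup G}
    (h : YY p q (⊤ : Subgroup A)) : YY p q A := by
  have := h.map hp hq A.subtype
  rwa [← MonoidHom.range_eq_map, range_subtype] at this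

end Pool.Agent.P.MP_11c1cd_al
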