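import Pool.Agent.P.MP_11c1cd_al.Central

namespace Pool.Agent.P.MP_11c1cd_al

open Pointwise Subgroup

universe u

variable {G : Type*} [Group G]

/-- Inside `A`, every `q`-element normalising a `p`-subgroup centralises it. -/
def XX (p q : ℕ) (A : Subgroup G) : Prop :=
  ∀ P : Subgroup G, P ≤ A → IsPGroup p P → ∀ x ∈ A, QElt q x → x ∈ normalizer (P : Set G) →
    x ∈ centralizer (P : Set G)

theorem frattini_rel [Finite G] {p : ℕ} [Fact p.Prime] {Y : Subgroup G} (S : Sylow p Y) {x : G}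
    (hx : x ∈ normalizer (Y : Set G)) :
    ∃ m ∈ Y, m⁻¹ * x ∈ normalizer (((S : Subgroup Y).map Y.subtype : Subgroup G) : Set G) := by
  obtain ⟨T, hT⟩ := (((S.isPGroup'.map Y.subtype).map
    (MulAut.conj x).toMonoidHom).comap_subtype (K := Y)).exists_le_sylow
  obtain ⟨m, rfl⟩ := MulAction.exists_smul_eq Y S T
  refine ⟨m, m.2, mem_normalizer_fintype ?_⟩
  rintro _ ⟨r, hr, rfl⟩
  have h1 : x * (r : G) * x⁻¹ ∈ Y := (mem_normalizer_iff.1 hx _).1 r.2
  have h2 := hT (x := ⟨_, h1⟩) ⟨r, ⟨r, hr, rfl⟩, rfl⟩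
  rw [Sylow.coe_subgroup_smul] at h2
  obtain ⟨s, hs, e⟩ := h2
  refine ⟨s, hs, ?_⟩
  have e2 : (m : G) * s * (m : G)⁻¹ = x * r * x⁻¹ := congrArg Subtype.val e
  change (s : G) = (m : G)⁻¹ * x * r * ((m : G)⁻¹ * x)⁻¹
  calc (s : G) = (m : G)⁻¹ * ((m : G) * s * (m : G)⁻¹) * m := by group
    _ = _ := by rw [e2]; group

theorem XX.mono {p q : ℕ} {A B : Subgroup G} (h : XX p q B) (hAB : A ≤ B) : XX p q A :=
  fun P hP hp x hx => h P (hP.trans hAB) hp x (hAB hx)

theorem XX.map [Finite G] {p q : ℕ} (hp : p.Prime) (hq : q.Prime) {A : Subgroup G}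
    (h : XX p q A) {G' : Type*} [Group G'] (f : G →* G') : XX p q (A.map f) := by
  rintro P hP hPp _ ⟨x, hx, rfl⟩ hxq hxn
  have := Fact.mk hp
  set Y := A ⊓ P.comap f with hY
  have hxY : x ∈ normalizer (Y : Set G) :=
    inf_normalizer_le_normalizer_inf ⟨le_normalizer hx, le_normalizer_comap f hxn⟩
  let g : Y →* P := (f.comp Y.subtype).codRestrict P (fun y => y.2.2)
  have hg : Function.Surjective g := by
    rintro ⟨u, hu⟩
    obtain ⟨a, ha, rfl⟩ := hP hu
    exact ⟨⟨a, ha, hu⟩, rfl⟩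
  obtain ⟨S⟩ : Nonempty (Sylow p Y) := inferInstance
  have hS : ∀ u ∈ P, ∃ r ∈ (S : Subgroup Y).map Y.subtype, f r = u := by
    intro u hu
    have h1 := (S.mapSurjective hg).is_maximal' (hPp.to_subgroup ⊤) le_top
    have h2 : (⟨u, hu⟩ : P) ∈ ((S.mapSurjective hg : Sylow p P) : Subgroup P) :=
      h1 ▸ mem_top _
    rw [Sylow.coe_mapSurjective] at h2
    obtain ⟨r, hr, e⟩ := h2
    exact ⟨r, ⟨r, hr, rfl⟩, congrArg Subtype.val e⟩
  obtain ⟨m, hm, hn⟩ := frattini_rel S hxY
  obtain ⟨r, hr, e⟩ := hS (f m) hm.2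
  set R := (S : Subgroup Y).map Y.subtype with hR
  have hRA : R ≤ A := (map_subtype_le _).trans inf_le_left
  have hn' : r * (m⁻¹ * x) ∈ normalizer (R : Set G) := mul_mem (le_normalizer hr) hn
  have hfx : f (r * (m⁻¹ * x)) = f x := by rw [map_mul, map_mul, e, map_inv]; group
  obtain ⟨k, hk, hk'⟩ := exists_qpart hq (r * (m⁻¹ * x))
  have h3 := h R hRA (S.isPGroup'.map _) _
    (A.pow_mem (A.mul_mem (hRA hr) (A.mul_mem (A.inv_mem hm.1) hx)) k) hk' (pow_mem hn' k)
  apply hxq.mem_of_pow_mem hk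
  intro u hu
  obtain ⟨s, hs, rfl⟩ := hS u hu
  rw [← hfx, ← map_pow, ← map_mul, ← map_mul, h3 s hs]

theorem normalizer_le_normalizer_centralizer' (R : Subgroup G) :
    normalizer (R : Set G) ≤ normalizer (centralizer (R : Set G) : Set G) := by
  rw [le_normalizer_iff]
  intro n hn c hc r hr
  have h1 := hc _ ((mem_normalizer_iff''.1 hn r).1 hr)
  calc r * (n * c * n⁻¹) = n * (n⁻¹ * r * n * c) * n⁻¹ := by group
    _ = n * c * n⁻¹ * r := by rw [h1]; group

theorem nc_main {ι : Type*} [Finite ι] {p q : ℕ} (hp : p.Prime) (hq : q.Prime) (hpq : p ≠ q) :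
    ∀ (n : ℕ) (G : Type u) [Group G] [Finite G], Nat.card G = n → ∀ H : ι → Subgroup G,
      (∀ i j, i ≠ j → MP (H i) (H j)) → ⨆ i, H i = ⊤ → (∀ i, XX p q (H i)) →
      (∀ i j, i ≠ j → p ∣ Nat.card (H i) → q ∣ Nat.card (H j) → ¬ q ∣ p - 1) →
      XX p q (⊤ : Subgroup G) := by
  intro n
  induction n using Nat.strong_induction_on with
  | _ n ih =>
  intro G _ _ hn H hm htop hX hΓ P _ hP x _ hxq hxn
  have := Fact.mk hp
  have hcop : q.Coprime p := (Nat.coprime_primes hq hp).2 hpq.symm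
  by_cases hG : Nat.card G = 1
  · have := (Nat.card_eq_one_iff_unique.1 hG).1
    intro u _
    exact Subsingleton.elim _ _
  obtain ⟨M, hM, hM0, hcase⟩ := structure_theorem hm htop hG
  have hlt : Nat.card (G ⧸ M) < n := by
    rw [← hn, card_eq_card_quotient_mul_card_subgroup M]
    exact lt_mul_of_one_lt_right Nat.card_pos ((one_lt_card_iff_ne_bot M).2 hM0)
  have hQ := ih _ hlt (G ⧸ M) rfl (fun i => (H i).map (QuotientGroup.mk' M))
    (fun i j hij => (hm i j hij).map _)
    (by rw [← Subgroup.map_iSup, htop, map_top_of_surjective _ (QuotientGroup.mk'_surjective M)])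
    (fun i => (hX i).map hp hq _)
    (fun i j hij h1 h2 => hΓ i j hij (h1.trans (card_map_dvd _ _)) (h2.trans (card_map_dvd _ _)))
    (P.map (QuotientGroup.mk' M)) le_top (hP.map _) (QuotientGroup.mk' M x) (mem_top _)
    (hxq.map _) (le_normalizer_map _ ⟨x, hxn, rfl⟩)
  suffices hs : x ∈ centralizer ((P ⊓ M : Subgroup G) : Set G) by
    intro u hu
    have h1 : u⁻¹ * (x * u * x⁻¹) ∈ P ⊓ M := by
      refine ⟨P.mul_mem (P.inv_mem hu) ((mem_normalizer_iff.1 hxn u).1 hu), ?_⟩
      have h2 := hQ _ ⟨u, hu, rfl⟩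
      refine (QuotientGroup.eq_one_iff (N := M) _).1 ?_
      rw [← QuotientGroup.mk'_apply]
      simp only [map_mul, map_inv]
      rw [← h2]; group
    have h2 := eq_one_of_conj (v := u) hcop hxq (qelt_of_mem hP h1.1) (hs _ h1).symm (by group)
    rw [inv_mul_eq_one] at h2
    calc u * x = x * u * x⁻¹ * x := by rw [← h2]
      _ = x * u := by group
  rcases hcase with ⟨l, hl, hMl, hMf⟩ | ⟨-, -, hdich⟩
  · by_cases hlp : l = p
    · subst hlp
      refine centralizer_le (show ((P ⊓ M : Subgroup G) : Set G) ⊆ M from inf_le_right (a := P)) ?_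
      apply qelt_mem_of_forall hm htop hq _ _ hxq
      intro i y hy hyq
      refine central_family hm hp hq hpq hΓ hMl hMf hy hyq (fun u hu => ?_)
      exact (hX i (M ⊓ H i) inf_le_right hMl.to_inf_left y hy hyq
        (inf_normalizer_le_normalizer_inf ⟨by rw [normalizer_eq_top]; trivial,
          le_normalizer hy⟩) u hu).symm
    · intro u hu
      have : u = 1 := (qelt_of_mem hP hu.1).eq_one (qelt_of_mem hMl hu.2)
        ((Nat.coprime_primes hp hl).2 (Ne.symm hlp))
      simp [this]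
  by_cases hex : ∃ i, M ≤ H i
  swap
  · have : (⊤ : Subgroup G) ≤ centralizer (M : Set G) := by
      rw [← htop]
      exact iSup_le fun i y hy u hu =>
        ((hdich i).resolve_left (fun h => hex ⟨i, h⟩) y hy u hu).symm
    exact fun u hu => this (mem_top x) u hu.2
  obtain ⟨i0, hi0⟩ := hex
  obtain ⟨S, hS⟩ := ((hP.to_inf_left (K := M)).comap_subtype (K := M)).exists_le_sylow
  set R := (S : Subgroup M).map M.subtype with hR
  have hPR : P ⊓ M ≤ R := fun u hu => ⟨⟨u, hu.2⟩, hS hu, rfl⟩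
  have hRM : R ≤ M := map_subtype_le _
  have hMtop : ∀ g : G, g ∈ normalizer (M : Set G) := fun g => by
    rw [normalizer_eq_top]; trivial
  have hN : (M ⊔ centralizer (R : Set G)).Normal := by
    rw [← normalizer_eq_top_iff, eq_top_iff]
    intro g _
    obtain ⟨m, hm', hn'⟩ := frattini_rel S (hMtop g)
    have : g = m * (m⁻¹ * g) := by group
    rw [this]
    exact mul_mem (le_normalizer (mem_sup_left hm'))
      (normalizer_inf_normalizer_le_normalizer_sup _ _
        ⟨hMtop _, normalizer_le_normalizer_centralizer' R hn'⟩)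
  have hx0 : x ∈ M ⊔ centralizer (R : Set G) := by
    apply qelt_mem_of_forall hm htop hq _ _ hxq
    intro i y hy hyq
    rcases hdich i with hi | hi
    · obtain ⟨m, hm', hn'⟩ := frattini_rel S (hMtop y)
      obtain ⟨k, hk, hk'⟩ := exists_qpart hq (m⁻¹ * y)
      have h3 := hX i R (hRM.trans hi) (S.isPGroup'.map _) _
        ((H i).pow_mem ((H i).mul_mem ((H i).inv_mem (hi hm')) hy) k) hk' (pow_mem hn' k)
      apply hyq.mem_of_pow_mem hk
      obtain ⟨m', hm'', e⟩ := mul_pow_mem_normalizer (hMtop (m⁻¹ * y))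
        (hM.conj_mem' m hm' (m⁻¹ * y)) k
      have : y = m⁻¹ * y * ((m⁻¹ * y)⁻¹ * m * (m⁻¹ * y)) := by group
      rw [this, e]
      exact mul_mem (mem_sup_right h3) (mem_sup_left hm'')
    · exact mem_sup_right fun u hu => (hi y hy u (hRM hu)).symm
  obtain ⟨m, hm', c, hc, rfl⟩ := mem_sup_of_normal_left.1 hx0
  have hxn' : m * c ∈ normalizer ((P ⊓ M : Subgroup G) : Set G) :=
    inf_normalizer_le_normalizer_inf ⟨hxn, hMtop _⟩
  have hact : ∀ u ∈ P ⊓ M, m * c * u * (m * c)⁻¹ = m * u * m⁻¹ := by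
    intro u hu
    have := hc u (hPR hu)
    calc m * c * u * (m * c)⁻¹ = m * (c * u) * c⁻¹ * m⁻¹ := by group
      _ = _ := by rw [← this]; group
  have hmn : m ∈ normalizer ((P ⊓ M : Subgroup G) : Set G) := by
    apply mem_normalizer_fintype
    intro u hu
    rw [← hact u hu]
    exact (mem_normalizer_iff.1 hxn' u).1 hu
  obtain ⟨k, hk, hk'⟩ := exists_qpart hq m
  have h3 := hX i0 (P ⊓ M) (inf_le_right.trans hi0) hP.to_inf_left _
    ((H i0).pow_mem (hi0 hm') k) hk' (pow_mem hmn k)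
  apply hxq.mem_of_pow_mem hk
  have key : ∀ j : ℕ, ∀ u ∈ P ⊓ M,
      (m * c) ^ j * u * ((m * c) ^ j)⁻¹ = m ^ j * u * (m ^ j)⁻¹ := by
    intro j
    induction j with
    | zero => simp
    | succ j ihj =>
      intro u hu
      calc (m * c) ^ (j + 1) * u * ((m * c) ^ (j + 1))⁻¹
          = (m * c) * ((m * c) ^ j * u * ((m * c) ^ j)⁻¹) * (m * c)⁻¹ := by
            rw [pow_succ', mul_inv_rev (m * c)]; simp only [mul_assoc]
        _ = m * (m ^ j * u * (m ^ j)⁻¹) * m⁻¹ := by
            rw [ihj u hu, hact _ ((mem_normalizer_iff.1 (pow_mem hmn j) u).1 hu)]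
        _ = _ := by rw [pow_succ']; group
  intro u hu
  have h4 := key k u hu
  rw [← h3 u hu, mul_inv_cancel_right] at h4
  calc u * (m * c) ^ k = (m * c) ^ k * u * ((m * c) ^ k)⁻¹ * (m * c) ^ k := by rw [h4]
    _ = _ := by group

theorem XX_of_no_schmidt [Finite G] {p q : ℕ} (hp : p.Prime) (hq : q.Prime) (hpq : p ≠ q)
    (h : ¬ ∃ S : Subgroup G, IsSchmidtPQ p q S) : XX p q (⊤ : Subgroup G) := by
  intro P _ hP x _ hxq hxn
  by_contra hx
  apply h
  have := Fact.mk hp
  have := Fact.mk hq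
  have hcop : q.Coprime p := (Nat.coprime_primes hq hp).2 hpq.symm
  have hT : ¬ Group.IsNilpotent (P ⊔ zpowers x : Subgroup G) := by
    intro hT
    apply hx
    intro u hu
    have h1 := ((Group.isNilpotent_of_finite_tfae (G := (P ⊔ zpowers x : Subgroup G))).out 0 3).1 hT
    obtain ⟨S1, hS1⟩ := (hP.comap_subtype (K := P ⊔ zpowers x)).exists_le_sylow
    have hz : IsPGroup q (zpowers x) := by
      obtain ⟨a, ha⟩ := hxq
      apply IsPGroup.of_card_dvd_pow (n := a)
      rw [Nat.card_zpowers]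
      exact orderOf_dvd_of_pow_eq_one ha
    obtain ⟨S2, hS2⟩ := (hz.comap_subtype (K := P ⊔ zpowers x)).exists_le_sylow
    have := commute_of_normal_of_disjoint _ _ (h1 p inferInstance S1) (h1 q inferInstance S2)
      (IsPGroup.disjoint_of_ne p q hpq _ _ S1.isPGroup' S2.isPGroup')
      ⟨u, mem_sup_left hu⟩ ⟨x, mem_sup_right (mem_zpowers x)⟩ (hS1 hu) (hS2 (mem_zpowers x))
    exact congrArg Subtype.val this.eq
  obtain ⟨S, ⟨hS1, hS2⟩, hmin⟩ := (Set.toFinite {S : Subgroup G | S ≤ P ⊔ zpowers x ∧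
    ¬ Group.IsNilpotent S}).exists_minimal ⟨_, le_rfl, hT⟩
  have hzn : zpowers x ≤ normalizer (P : Set G) := by simpa using hxn
  have hpm : Pm P (zpowers x) := by
    intro a ha z hz
    exact ⟨z, hz, z⁻¹ * a * z, (mem_normalizer_iff''.1 (hzn hz) a).1 ha, by group⟩
  obtain ⟨e1, he1⟩ := IsPGroup.iff_card.1 hP
  obtain ⟨a, ha⟩ := hxq
  have hdiv : ∀ r : ℕ, r.Prime → r ∣ Nat.card S → r = p ∨ r = q := by
    intro r hr hd
    have h1 := (hd.trans (card_dvd_of_le hS1)).trans hpm.card_sup_dvd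
    rcases (Nat.Prime.dvd_mul hr).1 h1 with h2 | h2
    · rw [he1] at h2
      exact Or.inl ((Nat.prime_dvd_prime_iff_eq hr hp).1 (hr.dvd_of_dvd_pow h2))
    · rw [Nat.card_zpowers] at h2
      exact Or.inr ((Nat.prime_dvd_prime_iff_eq hr hq).1
        (hr.dvd_of_dvd_pow (h2.trans (orderOf_dvd_of_pow_eq_one ha))))
  have hboth : ∀ r : ℕ, r.Prime → ¬ ∀ s : ℕ, s.Prime → s ∣ Nat.card S → s = r := by
    intro r hr hs
    have := Fact.mk hr
    apply hS2
    apply IsPGroup.isNilpotent (p := r)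
    rw [isPGroup_iff_primeFactors_card_subset hr.ne_zero]
    intro s hs'
    rw [hs s (Nat.prime_of_mem_primeFactors hs') (Nat.dvd_of_mem_primeFactors hs')]
    simp [hr]
  refine ⟨S, ⟨hS2, fun T hT => ?_⟩, ?_, ?_⟩
  · by_contra hT'
    have h1 : ¬ Group.IsNilpotent (T.map S.subtype) := fun h1 =>
      hT' (Group.nilpotent_of_mulEquiv (T.equivMapOfInjective S.subtype S.subtype_injective).symm)
    have h2 := hmin ⟨(map_subtype_le T).trans hS1, h1⟩ (map_subtype_le T)
    apply hT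
    rw [eq_top_iff]
    intro z _
    obtain ⟨w, hw, e⟩ := h2 z.2
    rwa [← Subtype.ext e]
  · ext r
    simp only [piG, piN, Set.mem_ofPred_eq, Set.mem_insert_iff, Set.mem_singleton_iff]
    constructor
    · exact fun h => hdiv r h.1 h.2
    · rintro (rfl | rfl)
      · refine ⟨hp, ?_⟩
        by_contra hd
        exact hboth q hq fun s hs hsd => (hdiv s hs hsd).resolve_left (fun e => hd (e ▸ hsd))
      · refine ⟨hq, ?_⟩
        by_contra hd
        exact hboth p hp fun s hs hsd => (hdiv s hs hsd).resolve_right (fun e => hd (e ▸ hsd))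
  · have hSn : S ≤ normalizer (P : Set G) := hS1.trans (sup_le le_normalizer hzn)
    have hnorm : (P.subgroupOf S).Normal := by
      constructor
      intro z hz g
      exact (mem_normalizer_iff.1 (hSn g.2) _).1 hz
    refine ⟨(hP.comap_subtype (K := S)).toSylow ?_, hnorm⟩
    intro hd
    have : (P.subgroupOf (P ⊔ zpowers x)).Normal :=
      (normal_subgroupOf_iff_le_normalizer le_sup_left).2 (sup_le le_normalizer hzn)
    have h1 : P.relIndex S ∣ P.relIndex (P ⊔ zpowers x) := by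
      rw [← relIndex_subgroupOf hS1]
      exact relIndex_dvd_index_of_normal _ _
    rw [hpm.relIndex_sup] at h1
    have h2 := (hd.trans h1).trans (P.relIndex_dvd_card (zpowers x))
    rw [Nat.card_zpowers] at h2
    exact hpq ((Nat.prime_dvd_prime_iff_eq hp hq).1
      (hp.dvd_of_dvd_pow (h2.trans (orderOf_dvd_of_pow_eq_one ha))))

theorem XX_of_top {p q : ℕ} {A : Subgroup G} (h : XX p q (⊤ : Subgroup A)) : XX p q A := by
  intro P hP hp x hx ⟨a, ha⟩ hxn u hu
  have := h (P.subgroupOf A) le_top hp.comap_subtype ⟨x, hx⟩ (mem_top _) ⟨a, Subtype.ext ha⟩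
    (by rw [← subgroupOf_normalizer_eq hP]; exact hxn) ⟨u, hP hu⟩ hu
  exact congrArg Subtype.val this

theorem ne_of_schmidt [Finite G] {p q : ℕ} (h : IsSchmidtPQ p q G) :
    p.Prime ∧ q.Prime ∧ p ≠ q := by
  have hp : p ∈ piG G := by rw [h.2.1]; simp
  have hq : q ∈ piG G := by rw [h.2.1]; simp
  refine ⟨hp.1, hq.1, ?_⟩
  rintro rfl
  have := Fact.mk hp.1
  apply h.1.1
  apply IsPGroup.isNilpotent (p := p)
  rw [isPGroup_iff_primeFactors_card_subset hp.1.ne_zero]
  intro s hs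
  have : s ∈ piG G := ⟨Nat.prime_of_mem_primeFactors hs, Nat.dvd_of_mem_primeFactors hs⟩
  rw [h.2.1] at this
  simp only [Set.pair_eq_singleton, Set.mem_singleton_iff] at this
  simp [this, hp.1]

theorem no_schmidt_of_XX [Finite G] {p q : ℕ} (h : XX p q (⊤ : Subgroup G)) (S : Subgroup G) :
    ¬ IsSchmidtPQ p q S := by
  intro hS
  obtain ⟨hp, hq, hpq⟩ := ne_of_schmidt hS
  obtain ⟨⟨h1, -⟩, h2, P, hP⟩ := hS
  have := Fact.mk hp
  have := Fact.mk hq
  apply h1
  refine ((Group.isNilpotent_of_finite_tfae (G := S)).out 3 0).1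
    (show ∀ (r : ℕ) (_ : Fact r.Prime) (Q : Sylow r S), (Q : Subgroup S).Normal from ?_)
  intro r hr Q
  by_cases hd : r ∣ Nat.card S
  swap
  · have : (Q : Subgroup S) = ⊥ := by
      obtain ⟨e, he⟩ := IsPGroup.iff_card.1 Q.isPGroup'
      apply eq_bot_of_card_eq
      rw [he]
      by_contra hne
      have he0 : e ≠ 0 := by rintro rfl; simp at hne
      exact hd ((dvd_pow_self r he0).trans (he ▸ card_subgroup_dvd_card _))
    rw [this]; infer_instance
  have hr' : r ∈ piG S := ⟨hr.out, hd⟩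
  rw [h2] at hr'
  rcases hr' with rfl | rfl
  · have := Sylow.unique_of_normal P hP
    rw [Subsingleton.elim Q P]; exact hP
  · rw [← normalizer_eq_top_iff, eq_top_iff]
    have hPQ : (P : Subgroup S) ≤ centralizer ((Q : Subgroup S) : Set S) := by
      intro u hu y hy
      have := h ((P : Subgroup S).map S.subtype) le_top (P.isPGroup'.map _) (y : G) (mem_top _)
        ((qelt_of_mem Q.isPGroup' hy).map S.subtype)
        (le_normalizer_map _ ⟨y, by rw [normalizer_eq_top]; trivial, rfl⟩) u ⟨u, hu, rfl⟩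
      exact Subtype.ext this.symm
    have htop : (P : Subgroup S) ⊔ (Q : Subgroup S) = ⊤ := by
      rw [← index_eq_one]
      by_contra hne
      obtain ⟨s, hs, hsd⟩ := Nat.exists_prime_and_dvd hne
      have hs' : s ∈ piG S := ⟨hs, hsd.trans (index_dvd_card _)⟩
      rw [h2] at hs'
      rcases hs' with rfl | rfl
      · exact P.not_dvd_index (hsd.trans (index_dvd_of_le le_sup_left))
      · exact Q.not_dvd_index (hsd.trans (index_dvd_of_le le_sup_right))
    rw [← htop]
    exact sup_le (hPQ.trans (centralizer_le_normalizer _)) le_normalizer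

end Pool.Agent.P.MP_11c1cd_al
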