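import Pool.Agent.P.MP_11c1cd_al.Basic

namespace Pool.Agent.P.MP_11c1cd_al

open Pointwise Subgroup

variable {G : Type*} [Group G]

theorem mul_pow_mem_normalizer {N : Subgroup G} {u y : G} (hu : u ∈ normalizer (N : Set G))
    (hy : y ∈ N) (n : ℕ) : ∃ y' ∈ N, (u * y) ^ n = u ^ n * y' := by
  induction n with
  | zero => exact ⟨1, N.one_mem, by simp⟩
  | succ n ih =>
    obtain ⟨y', hy', e⟩ := ih
    refine ⟨(u⁻¹ * y' * u) * y, N.mul_mem ((mem_normalizer_iff''.1 hu y').1 hy') hy, ?_⟩
    rw [pow_succ, e, pow_succ]; group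

theorem relIndex_of_inf_bot {X Y : Subgroup G} (h : X ⊓ Y = ⊥) : X.relIndex Y = Nat.card Y := by
  rw [← inf_relIndex_right, h, relIndex_bot_left]

theorem exists_nat_pow_of_mem_zpowers [Finite G] {b y : G} (hy : y ∈ zpowers b) :
    ∃ n : ℕ, b ^ n = y := by
  rw [← mem_powers_iff_mem_zpowers] at hy
  exact hy

theorem minFac_mul_prime {m r : ℕ} (hm : m ≠ 1) (hr : r.Prime) (h : m.minFac < r) :
    (m * r).minFac = m.minFac := by
  apply le_antisymm
  · exact Nat.minFac_le_of_dvd (Nat.minFac_prime hm).two_le ((Nat.minFac_dvd m).mul_right r)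
  · have hne : m * r ≠ 1 := fun e => hr.ne_one (Nat.eq_one_of_mul_eq_one_left e)
    have hp := Nat.minFac_prime hne
    rcases (Nat.Prime.dvd_mul hp).1 (Nat.minFac_dvd (m * r)) with h1 | h1
    · exact Nat.minFac_le_of_dvd hp.two_le h1
    · rw [(Nat.prime_dvd_prime_iff_eq hp hr).1 h1]; exact h.le

theorem step_free [Finite G] {A B : Subgroup G} (h : MP A B) {b : G} (hb : b ∈ B) {r : ℕ}
    (hr : r.Prime) (hbr : b ^ r = 1) (htop : A ⊔ zpowers b = ⊤) (hcore : A.normalCore = ⊥) :
    A ⊓ B = ⊥ ∧ (∀ s : ℕ, s.Prime → r ≤ s → ¬ s ∣ Nat.card A) ∧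
      (∀ Z : Subgroup G, ⁅Z, Z⁆ = Z → Z = ⊥) := by
  have hzB : zpowers b ≤ B := by simpa using hb
  by_cases hbA : b ∈ A
  · have hA : A = ⊤ := by
      rw [← htop]; exact (sup_of_le_left (by simpa using hbA)).symm
    have hbot : (⊤ : Subgroup G) = ⊥ := by
      rw [← hcore, hA]; exact (normalCore_eq_self ⊤).symm
    have hall : ∀ Z : Subgroup G, Z = ⊥ := fun Z => le_bot_iff.1 (hbot ▸ le_top)
    refine ⟨hall _, fun s hs _ hd => ?_, fun Z _ => hall Z⟩
    rw [hall A, card_bot, Nat.dvd_one] at hd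
    exact hs.ne_one hd
  have hb1 : b ≠ 1 := fun e => hbA (e ▸ A.one_mem)
  have := Fact.mk hr
  have hord : orderOf b = r := orderOf_eq_prime hbr hb1
  have hcz : Nat.card (zpowers b) = r := by rw [Nat.card_zpowers, hord]
  have hAz : A ⊓ zpowers b = ⊥ := by
    rcases (A.subgroupOf (zpowers b)).eq_bot_or_eq_top_of_prime_card
      (hp := ⟨hcz ▸ hr⟩) with h1 | h1
    · rw [subgroupOf_eq_bot, disjoint_iff] at h1; exact h1
    · rw [subgroupOf_eq_top] at h1
      exact absurd (h1 (mem_zpowers b)) hbA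
  have hpm : Pm A (zpowers b) := h.1 _ hzB
  have hidx : A.index = r := by
    rw [← relIndex_top_right, ← htop, hpm.relIndex_sup, relIndex_of_inf_bot hAz, hcz]
  have hdvd : Nat.card A ∣ (r - 1).factorial := by
    have h1 : A.normalCore.index ∣ A.index.factorial := by
      rw [normalCore_eq_ker, index_ker, index_eq_card, ← Nat.card_perm]
      exact card_subgroup_dvd_card (MulAction.toPermHom G (G ⧸ A)).range
    rw [hcore, index_bot, ← A.card_mul_index, hidx, ← Nat.mul_factorial_pred hr.ne_zero,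
      mul_comm r] at h1
    exact Nat.dvd_of_mul_dvd_mul_right hr.pos h1
  have hsmall : ∀ s : ℕ, s.Prime → s ∣ Nat.card A → s < r := by
    intro s hs hd
    have := (hs.dvd_factorial).1 (hd.trans hdvd)
    have := hr.pos
    omega
  have hc : ∀ c : G, (∀ n : ℕ, b ^ n * c * (b ^ n)⁻¹ ∈ A) → c = 1 := by
    intro c hc
    rw [← mem_bot, ← hcore]
    intro g
    obtain ⟨a, ha, y, hy, rfl⟩ := hpm.mem_sup (htop ▸ mem_top g)
    obtain ⟨n, rfl⟩ := exists_nat_pow_of_mem_zpowers hy
    have : a * b ^ n * c * (a * b ^ n)⁻¹ = a * (b ^ n * c * (b ^ n)⁻¹) * a⁻¹ := by group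
    rw [this]
    exact A.mul_mem (A.mul_mem ha (hc n)) (A.inv_mem ha)
  -- the intersection is trivial
  have hD : A ⊓ B = ⊥ := by
    set D := A ⊓ B with hDdef
    set D' := D.map (MulAut.conj b).toMonoidHom with hD'
    have hD'B : D' ≤ B := by
      rintro _ ⟨d, hd, rfl⟩
      exact B.mul_mem (B.mul_mem hb hd.2) (B.inv_mem hb)
    have hp1 : Pm D D' := h.inf_pm hD'B
    have hcD' : Nat.card D' = Nat.card D :=
      card_map_of_injective (MulAut.conj b).injective
    have hBeq : B = D ⊔ zpowers b := by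
      apply le_antisymm _ (sup_le inf_le_right hzB)
      intro g hg
      obtain ⟨a, ha, y, hy, rfl⟩ := hpm.mem_sup (htop ▸ mem_top g)
      refine mul_mem_sup ⟨ha, ?_⟩ hy
      have : a = a * y * y⁻¹ := by group
      rw [this]; exact B.mul_mem hg (B.inv_mem (hzB hy))
    have hDz : D ⊓ zpowers b = ⊥ := le_bot_iff.1 (hAz ▸ inf_le_inf_right _ inf_le_left)
    have hrel : D.relIndex B = r := by
      conv_lhs => rw [hBeq]
      rw [(h.inf_pm hzB).relIndex_sup, relIndex_of_inf_bot hDz, hcz]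
    have hmul := relIndex_mul_relIndex D (D ⊔ D') B le_sup_left (sup_le inf_le_right hD'B)
    rw [hrel] at hmul
    have hone : D.relIndex (D ⊔ D') = 1 := by
      rcases (Nat.dvd_prime hr).1 (Dvd.intro _ hmul) with h1 | h1
      · exact h1
      · exfalso
        have h2 : r ∣ Nat.card D * Nat.card D' := by
          refine Dvd.dvd.trans ?_ hp1.card_sup_dvd
          rw [card_eq_mul_relIndex (le_sup_left : D ≤ D ⊔ D'), h1]
          exact Dvd.intro_left _ rfl
        rw [hcD'] at h2
        have h3 : r ∣ Nat.card D := by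
          rcases (Nat.Prime.dvd_mul hr).1 h2 with h3 | h3 <;> exact h3
        exact lt_irrefl _ (hsmall r hr (h3.trans (card_dvd_of_le inf_le_left)))
    have hle : D' ≤ D := le_sup_right.trans (relIndex_eq_one.1 hone)
    rw [eq_bot_iff]
    intro d hd
    rw [mem_bot]
    apply hc
    intro n
    suffices b ^ n * d * (b ^ n)⁻¹ ∈ D from this.1
    induction n with
    | zero => simpa using hd
    | succ n ih =>
      have : b ^ (n + 1) * d * (b ^ (n + 1))⁻¹ = b * (b ^ n * d * (b ^ n)⁻¹) * b⁻¹ := by group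
      rw [this]
      exact hle ⟨_, ih, rfl⟩
  have hBz : B = zpowers b := by
    apply le_antisymm _ hzB
    intro g hg
    obtain ⟨a, ha, y, hy, rfl⟩ := hpm.mem_sup (htop ▸ mem_top g)
    have haB : a ∈ B := by
      have : a = a * y * y⁻¹ := by group
      rw [this]; exact B.mul_mem hg (B.inv_mem (hzB hy))
    have : a = 1 := by rw [← mem_bot, ← hD]; exact ⟨ha, haB⟩
    simpa [this] using hy
  -- every element of `A` normalises `⟨b⟩`
  have hnorm : ∀ (m : ℕ) (x : G), x ∈ A → orderOf x = m →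
      x ∈ normalizer (zpowers b : Set G) := by
    intro m
    induction m using Nat.strong_induction_on with
    | _ m ih =>
    intro x hx hm
    by_cases hm1 : m = 1
    · rw [hm1, orderOf_eq_one_iff] at hm
      rw [hm]; exact one_mem _
    have hcardY : ∀ u ∈ A, Nat.card (zpowers u ⊔ zpowers b : Subgroup G) = orderOf u * r := by
      intro u hu
      have huA : zpowers u ≤ A := by simpa using hu
      have hp : Pm (zpowers u) (zpowers b) := hBz ▸ h.2 _ huA
      have : zpowers u ⊓ zpowers b = ⊥ := le_bot_iff.1 (hAz ▸ inf_le_inf_right _ huA)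
      rw [hp.card_sup, relIndex_of_inf_bot this, hcz, Nat.card_zpowers]
    have hm0 : 0 < m := hm ▸ orderOf_pos x
    set s := m.minFac with hs
    have hsp : s.Prime := Nat.minFac_prime hm1
    have hsm : s ∣ m := Nat.minFac_dvd m
    have hsr : s < r := hsmall s hsp (hsm.trans (hm ▸ A.orderOf_dvd_natCard hx))
    have hx1 : x ^ s ∈ A := A.pow_mem hx s
    have hord1 : orderOf (x ^ s) = m / s := by
      rw [orderOf_pow' x hsp.ne_zero, hm, Nat.gcd_eq_right hsm]
    have hlt : m / s < m := Nat.div_lt_self hm0 hsp.one_lt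
    have hn1 := ih _ hlt (x ^ s) hx1 hord1
    set Y := zpowers x ⊔ zpowers b with hY
    set Y1 := zpowers (x ^ s) ⊔ zpowers b with hY1
    have hle : Y1 ≤ Y := sup_le_sup_right (by simp [npow_mem_zpowers]) _
    have hrel : Y1.relIndex Y = s := by
      have h1 := card_eq_mul_relIndex hle
      rw [hY, hY1, hcardY x hx, hcardY _ hx1, hord1, hm, ← hY, ← hY1] at h1
      obtain ⟨k, hk⟩ := hsm
      have hk' : m / s = k := by rw [hk]; exact Nat.mul_div_cancel_left k hsp.pos
      have hk0 : 0 < k := Nat.pos_of_ne_zero (by rintro rfl; omega)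
      rw [hk'] at h1
      have h2 : k * r * s = k * r * Y1.relIndex Y := by rw [← h1, hk]; ring
      exact (Nat.eq_of_mul_eq_mul_left (Nat.mul_pos hk0 hr.pos) h2).symm
    have hN : (Y1.subgroupOf Y).Normal := by
      apply normal_of_index_eq_minFac_card
      change Y1.relIndex Y = _
      rw [hrel, hY, hcardY x hx, hm, minFac_mul_prime hm1 hr hsr]
    have hxN : x ∈ normalizer (Y1 : Set G) :=
      (normal_subgroupOf_iff_le_normalizer hle).1 hN (mem_sup_left (mem_zpowers x))
    have hconj : x * b * x⁻¹ ∈ zpowers b := by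
      have h1 : x * b * x⁻¹ ∈ Y1 := (mem_normalizer_iff.1 hxN b).1 (mem_sup_right (mem_zpowers b))
      have hp : Pm (zpowers (x ^ s)) (zpowers b) := hBz ▸ h.2 _ (by simpa using hx1)
      obtain ⟨u, hu, y, hy, e⟩ := hp.mem_sup h1
      have huA : u ∈ A := (show zpowers (x ^ s) ≤ A by simpa using hx1) hu
      have huN : u ∈ normalizer (zpowers b : Set G) :=
        (show zpowers (x ^ s) ≤ _ by simpa using hn1) hu
      obtain ⟨y', hy', e'⟩ := mul_pow_mem_normalizer huN hy r
      rw [← e, conj_pow, hbr] at e'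
      have hur : u ^ r = 1 := by
        rw [← mem_bot, ← hAz]
        refine ⟨A.pow_mem huA r, ?_⟩
        have : u ^ r = y'⁻¹ := by
          rw [eq_inv_iff_mul_eq_one, ← e']; group
        rw [this]; exact (zpowers b).inv_mem hy'
      have hu1 : u = 1 := by
        by_contra hu1
        have := orderOf_eq_prime hur hu1
        exact lt_irrefl _ (hsmall r hr (this ▸ A.orderOf_dvd_natCard huA))
      rw [e, hu1, one_mul]; exact hy
    apply mem_normalizer_fintype
    rintro _ ⟨k, rfl⟩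
    change x * b ^ k * x⁻¹ ∈ zpowers b
    rw [← conj_zpow]
    exact zpow_mem hconj k
  have hcomm : ∀ x ∈ A, ∀ x' ∈ A, x * x' = x' * x := by
    intro x hx x' hx'
    obtain ⟨k, hk⟩ := (mem_normalizer_iff.1 (hnorm _ x hx rfl) b).1 (mem_zpowers b)
    obtain ⟨k', hk'⟩ := (mem_normalizer_iff.1 (hnorm _ x' hx' rfl) b).1 (mem_zpowers b)
    simp only at hk hk'
    have e1 : x * x' * b * (x * x')⁻¹ = b ^ (k * k') := by
      calc x * x' * b * (x * x')⁻¹ = x * (x' * b * x'⁻¹) * x⁻¹ := by group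
        _ = (x * b * x⁻¹) ^ k' := by rw [← hk', conj_zpow]
        _ = _ := by rw [← hk, zpow_mul]
    have e2 : x' * x * b * (x' * x)⁻¹ = b ^ (k * k') := by
      calc x' * x * b * (x' * x)⁻¹ = x' * (x * b * x⁻¹) * x'⁻¹ := by group
        _ = (x' * b * x'⁻¹) ^ k := by rw [← hk, conj_zpow]
        _ = _ := by rw [← hk', mul_comm k, zpow_mul]
    have e3 : Commute b ((x' * x)⁻¹ * (x * x')) := by
      have : (x' * x)⁻¹ * (x * x') * b = (x' * x)⁻¹ * (x * x' * b * (x * x')⁻¹) * (x * x') := by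
        group
      change b * _ = _
      rw [this, e1, ← e2]; group
    have : (x' * x)⁻¹ * (x * x') = 1 := by
      apply hc
      intro n
      rw [(e3.pow_left n).eq, mul_inv_cancel_right]
      exact A.mul_mem (A.inv_mem (A.mul_mem hx' hx)) (A.mul_mem hx hx')
    rw [inv_mul_eq_one] at this
    exact this.symm
  refine ⟨hD, fun s hs hrs hd => absurd (hsmall s hs hd) (not_lt.2 hrs), fun Z hZ => ?_⟩
  have hNn : (zpowers b).Normal := by
    rw [← normalizer_eq_top_iff, eq_top_iff, ← htop]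
    exact sup_le (fun x hx => hnorm _ x hx rfl) le_normalizer
  have h1 : Z ≤ zpowers b := by
    rw [← hZ, commutator_le]
    intro g1 _ g2 _
    obtain ⟨a1, ha1, y1, hy1, rfl⟩ := hpm.mem_sup (htop ▸ mem_top g1)
    obtain ⟨a2, ha2, y2, hy2, rfl⟩ := hpm.mem_sup (htop ▸ mem_top g2)
    rw [← QuotientGroup.eq_one_iff, ← QuotientGroup.mk'_apply, map_commutatorElement,
      commutatorElement_eq_one_iff_mul_comm]
    simp only [QuotientGroup.mk'_apply, QuotientGroup.mk_mul,
      (QuotientGroup.eq_one_iff _).2 hy1, (QuotientGroup.eq_one_iff _).2 hy2, mul_one]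
    rw [← QuotientGroup.mk_mul, hcomm a1 ha1 a2 ha2, QuotientGroup.mk_mul]
  rw [eq_bot_iff, ← hZ, commutator_le]
  intro g1 hg1 g2 hg2
  obtain ⟨k1, rfl⟩ := h1 hg1
  obtain ⟨k2, rfl⟩ := h1 hg2
  rw [mem_bot, commutatorElement_eq_one_iff_commute]
  exact Commute.zpow_zpow_self b k1 k2

end Pool.Agent.P.MP_11c1cd_al
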