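import Pool.Agent.P.MP_11c1cd_al.Chain

namespace Pool.Agent.P.MP_11c1cd_al

open Pointwise Subgroup

variable {G : Type*} [Group G]

/-- The join of all perfect subgroups of `A`. -/
def Perf (A : Subgroup G) : Subgroup G := sSup {Z | Z ≤ A ∧ ⁅Z, Z⁆ = Z}

theorem Perf_le (A : Subgroup G) : Perf A ≤ A := sSup_le fun _ h => h.1

theorem normal_of_forall {ι : Type*} {H : ι → Subgroup G} (htop : ⨆ i, H i = ⊤) {W : Subgroup G}
    (h : ∀ i, ∀ g ∈ H i, ∀ w ∈ W, g * w * g⁻¹ ∈ W) : W.Normal := by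
  rw [← normalizer_eq_top_iff, eq_top_iff, ← htop]
  exact iSup_le fun i => le_normalizer_iff.2 (h i)

theorem Perf_normal [Finite G] {ι : Type*} {H : ι → Subgroup G}
    (hm : ∀ i j, i ≠ j → MP (H i) (H j)) (htop : ⨆ i, H i = ⊤) (k : ι) : (Perf (H k)).Normal := by
  apply normal_of_forall htop
  intro i g hg
  have : Perf (H k) ≤ (Perf (H k)).comap (MulAut.conj g).toMonoidHom := by
    apply sSup_le
    rintro Z ⟨hZ, hZ'⟩
    rw [← map_le_iff_le_comap]
    have hp : ⁅Z.map (MulAut.conj g).toMonoidHom, Z.map (MulAut.conj g).toMonoidHom⁆ =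
        Z.map (MulAut.conj g).toMonoidHom := by rw [← map_commutator, hZ']
    refine le_sSup ⟨?_, hp⟩
    by_cases hik : k = i
    · subst hik
      rintro _ ⟨z, hz, rfl⟩
      exact (H k).mul_mem ((H k).mul_mem hg (hZ hz)) ((H k).inv_mem hg)
    · apply (hm k i hik).perfect_le g hg _ _ hp
      rintro _ ⟨z, hz, rfl⟩
      exact mul_mem (mul_mem (mem_sup_right (mem_zpowers g)) (mem_sup_left (hZ hz)))
        (inv_mem (mem_sup_right (mem_zpowers g)))
  exact fun w hw => this hw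

theorem exists_zpowers_prime [Finite G] {S : Subgroup G} (hS : S ≠ ⊥) :
    ∃ l : ℕ, l.Prime ∧ ∃ x ∈ S, x ≠ 1 ∧ IsPGroup l (zpowers x) := by
  have h1 : Nat.card S ≠ 1 := fun e => hS (eq_bot_of_card_eq S e)
  have := Fact.mk (Nat.minFac_prime h1)
  obtain ⟨x, hx⟩ := exists_prime_orderOf_dvd_card' _ (Nat.minFac_dvd (Nat.card S))
  rw [← Subgroup.orderOf_coe] at hx
  refine ⟨_, this.out, x, x.2, fun e => ?_, IsPGroup.of_card (n := 1) ?_⟩
  · rw [e, orderOf_one] at hx
    exact this.out.ne_one hx.symm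
  · rw [Nat.card_zpowers, hx, pow_one]

theorem exists_Op_ne_bot [Finite G] {S : Subgroup G} (hS : S ≠ ⊥)
    (h : ∀ Z : Subgroup G, Z ≤ S → ⁅Z, Z⁆ = Z → Z = ⊥) : ∃ l : ℕ, l.Prime ∧ Op l S ≠ ⊥ := by
  obtain ⟨L, hL⟩ := (Set.toFinite {L : Subgroup G | L ≤ S ∧ S ≤ normalizer (L : Set G) ∧
    L ≠ ⊥}).exists_minimal ⟨S, le_rfl, le_normalizer, hS⟩
  obtain ⟨⟨h1, h2, h3⟩, hmin⟩ := hL
  have hc : ⁅L, L⁆ = ⊥ := by
    by_contra hne
    have hle : ⁅L, L⁆ ≤ L := commutator_le.2 fun a ha b hb =>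
      L.mul_mem (L.mul_mem (L.mul_mem ha hb) (L.inv_mem ha)) (L.inv_mem hb)
    have hn : S ≤ normalizer ((⁅L, L⁆ : Subgroup G) : Set G) := by
      intro s hs
      rw [mem_normalizer_iff_map_conj_eq, map_commutator,
        mem_normalizer_iff_map_conj_eq.1 (h2 hs)]
    exact h3 (h L h1 (le_antisymm hle (hmin ⟨hle.trans h1, hn, hne⟩ hle)))
  obtain ⟨l, hl, x, hx, hx1, hp⟩ := exists_zpowers_prime h3
  refine ⟨l, hl, fun e => hx1 ?_⟩
  have h4 : zpowers x ≤ Op l L := by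
    refine le_Op (by simpa using hx) ?_ hp
    rw [le_normalizer_iff]
    intro y hy z hz
    have hz' : z ∈ L := (show zpowers x ≤ L by simpa using hx) hz
    have := commutator_mem_commutator hy hz'
    rw [hc, mem_bot, commutatorElement_eq_one_iff_mul_comm] at this
    rw [this, mul_inv_cancel_right]; exact hz
  have h5 : Op l L ≤ Op l S :=
    le_Op ((Op_le l L).trans h1) (h2.trans (normalizer_le_normalizer_Op l L)) (isPGroup_Op l L)
  rw [← mem_bot, ← e]
  exact h5 (h4 (mem_zpowers x))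

theorem conj_mem_sup {A B M : Subgroup G} [hM : M.Normal] (h : MP A B) {y v : G} (hy : y ∈ A)
    (hv : v ∈ M ⊓ B) : y * v * y⁻¹ ∈ (M ⊓ A) ⊔ zpowers v := by
  obtain ⟨v', hv', y', hy', e⟩ := h.1 (zpowers v) (by simpa using hv.2) y hy v (mem_zpowers v)
  have h1 : y * v * y⁻¹ = v' * (y' * y⁻¹) := by rw [e, mul_assoc]
  rw [h1, sup_comm]
  refine mul_mem_sup hv' ⟨?_, A.mul_mem hy' (A.inv_mem hy)⟩
  have : y' * y⁻¹ = v'⁻¹ * (y * v * y⁻¹) := by rw [h1]; group
  rw [this]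
  exact M.mul_mem (M.inv_mem ((show zpowers v ≤ M by simpa using hv.1) hv'))
    (hM.conj_mem v hv.1 y)

theorem normal_iSup_inf {ι : Type*} {H : ι → Subgroup G}
    (hm : ∀ i j, i ≠ j → MP (H i) (H j)) (htop : ⨆ i, H i = ⊤) (M : Subgroup G) [hM : M.Normal] :
    (⨆ k, M ⊓ H k).Normal := by
  apply normal_of_forall htop
  intro i g hg
  have : (⨆ k, M ⊓ H k) ≤ (⨆ k, M ⊓ H k).comap (MulAut.conj g).toMonoidHom := by
    apply iSup_le
    intro k v hv
    change g * v * g⁻¹ ∈ (⨆ k, M ⊓ H k)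
    by_cases hik : i = k
    · subst hik
      exact (le_iSup (fun k => M ⊓ H k) i) ⟨hM.conj_mem v hv.1 g,
        (H i).mul_mem ((H i).mul_mem hg hv.2) ((H i).inv_mem hg)⟩
    · refine (sup_le (le_iSup (fun k => M ⊓ H k) i) ?_) (conj_mem_sup (hm i k hik) hg hv)
      rw [zpowers_le]
      exact (le_iSup (fun k => M ⊓ H k) k) hv
  exact fun w hw => this hw

theorem dichotomy [Finite G] {ι : Type*} {H : ι → Subgroup G}
    (hm : ∀ i j, i ≠ j → MP (H i) (H j)) (htop : ⨆ i, H i = ⊤) {M : Subgroup G} [hM : M.Normal]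
    (hmin : ∀ N : Subgroup G, N.Normal → N ≤ M → N = ⊥ ∨ N = M)
    (hO : ∀ l : ℕ, l.Prime → Op l M = ⊥) {k : ι} (hk : M ≤ H k) (i : ι) :
    M ≤ H i ∨ ∀ y ∈ H i, ∀ n ∈ M, y * n = n * y := by
  by_cases hi : M ≤ H i
  · exact Or.inl hi
  right
  have hik : i ≠ k := by rintro rfl; exact hi hk
  have hP := Perf_normal hm htop i
  have h1 : Perf (H i) ⊓ M = ⊥ := by
    rcases hmin (Perf (H i) ⊓ M) inferInstance inf_le_right with h1 | h1
    · exact h1
    · exact absurd ((h1.ge.trans inf_le_left).trans (Perf_le _)) hi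
  have hD : M ⊓ H i = ⊥ := by
    by_contra hne
    obtain ⟨l, hl, hl'⟩ := exists_Op_ne_bot hne (fun Z hZ hZ' => by
      rw [eq_bot_iff, ← h1]
      exact le_inf (le_sSup ⟨hZ.trans inf_le_right, hZ'⟩) (hZ.trans inf_le_left))
    have := Fact.mk hl
    have hmp : MP (M ⊓ H i) M := by
      refine ⟨fun Y hY x hx y hy => ?_, fun X hX => pm_of_le (hX.trans inf_le_left)⟩
      obtain ⟨y', hy', x', hx', e⟩ := (hm i k hik).1 Y (hY.trans hk) x hx.2 y hy
      refine ⟨y', hy', x', ⟨?_, hx'⟩, e⟩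
      have : x' = y'⁻¹ * (x * y) := by rw [e]; group
      rw [this]
      exact M.mul_mem (M.inv_mem (hY hy')) (M.mul_mem hx.1 (hY hy))
    have h2 := hmp.le_Op (l := l) le_rfl (le_normalizer_Op _ _) (fun r _ _ K hK _ =>
      (le_inf (Op_le _ _) ((Op_le _ _).trans inf_le_left)).trans hK)
    rw [sup_of_le_right inf_le_left, hO l hl, le_bot_iff] at h2
    exact hl' h2
  set N : Subgroup G := ⨅ X : Subgroup G, ⨅ _ : X ≤ M, normalizer (X : Set G) with hN
  have hmem : ∀ z, z ∈ N ↔ ∀ X : Subgroup G, X ≤ M → z ∈ normalizer (X : Set G) := by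
    intro z; simp only [hN, mem_iInf]
  have hNn : N.Normal := by
    constructor
    intro z hz g
    rw [hmem] at hz ⊢
    intro X hX
    apply mem_normalizer_fintype
    intro x hx
    have hle : X.map (MulAut.conj g⁻¹).toMonoidHom ≤ M := by
      rintro _ ⟨w, hw, rfl⟩
      exact hM.conj_mem w (hX hw) g⁻¹
    obtain ⟨w, hw, e⟩ := (mem_normalizer_iff.1 (hz _ hle) _).1 ⟨x, hx, rfl⟩
    simp only [MulEquiv.toMonoidHom_eq_coe, MonoidHom.coe_coe, MulAut.conj_apply] at e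
    have : g * z * g⁻¹ * x * (g * z * g⁻¹)⁻¹ = w := by
      calc _ = g * (z * (g⁻¹ * x * g⁻¹⁻¹) * z⁻¹) * g⁻¹ := by group
        _ = w := by rw [← e]; group
    rw [this]; exact hw
  have hNM : N ⊓ M = ⊥ := by
    rcases hmin (N ⊓ M) inferInstance inf_le_right with h2 | h2
    · exact h2
    · exfalso
      have hne : M ≠ ⊥ := by rintro rfl; exact hi bot_le
      obtain ⟨l, hl, x, hx, hx1, hp⟩ := exists_zpowers_prime hne
      have hle : zpowers x ≤ M := by simpa using hx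
      have := le_Op hle (fun z hz => (hmem z).1 (h2.ge hz).1 _ hle) hp
      rw [hO l hl, le_bot_iff, zpowers_eq_bot] at this
      exact hx1 this
  intro y hy n hn
  have hyN : y ∈ N := by
    rw [hmem]
    intro X hX
    apply mem_normalizer_fintype
    intro x hx
    have := conj_mem_sup (M := M) (hm i k hik) hy ⟨hX hx, hk (hX hx)⟩
    rw [hD, bot_sup_eq] at this
    exact (show zpowers x ≤ X by simpa using hx) this
  have : y * n * y⁻¹ * n⁻¹ = 1 := by
    rw [← mem_bot, ← hNM]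
    refine ⟨?_, M.mul_mem (hM.conj_mem n hn y) (M.inv_mem hn)⟩
    have : y * n * y⁻¹ * n⁻¹ = y * (n * y⁻¹ * n⁻¹) := by group
    rw [this]
    exact N.mul_mem hyN (hNn.conj_mem _ (N.inv_mem hyN) n)
  calc y * n = (y * n * y⁻¹ * n⁻¹) * (n * y) := by group
    _ = n * y := by rw [this, one_mul]

/-- Structure theorem for pairwise mutually permutable products. -/
theorem structure_theorem [Finite G] {ι : Type*} [Finite ι] {H : ι → Subgroup G}
    (hm : ∀ i j, i ≠ j → MP (H i) (H j)) (htop : ⨆ i, H i = ⊤) (hG : Nat.card G ≠ 1) :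
    ∃ M : Subgroup G, M.Normal ∧ M ≠ ⊥ ∧
      ((∃ l : ℕ, l.Prime ∧ IsPGroup l M ∧ M ≤ ⨆ k, M ⊓ H k) ∨
        ((∀ N : Subgroup G, N.Normal → N ≤ M → N = ⊥ ∨ N = M) ∧
          (∀ l : ℕ, l.Prime → Op l M = ⊥) ∧
          ∀ i, M ≤ H i ∨ ∀ y ∈ H i, ∀ n ∈ M, y * n = n * y)) := by
  classical
  have hne : (Nat.card G).primeFactors.Nonempty :=
    Nat.nonempty_primeFactors.2 (lt_of_le_of_ne Nat.card_pos hG.symm)
  set p := (Nat.card G).primeFactors.max' hne with hp
  have hpm : p ∈ (Nat.card G).primeFactors := Finset.max'_mem _ _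
  have hpp : p.Prime := Nat.prime_of_mem_primeFactors hpm
  have hmax : ∀ r : ℕ, r.Prime → r ∣ Nat.card G → r ≤ p := fun r hr hd =>
    Finset.le_max' _ _ (Nat.mem_primeFactors.2 ⟨hr, hd, Nat.card_pos.ne'⟩)
  obtain ⟨k, hk⟩ := prime_dvd_iSup H (fun i j hij => (hm i j hij).pm) hpp
    (by rw [htop, card_top]; exact Nat.dvd_of_mem_primeFactors hpm)
  by_cases hP : Perf (H k) = ⊥
  · set S : Subgroup G := closure {x | x ∈ H k ∧ ∃ e : ℕ, x ^ p ^ e = 1} with hS
    have hSle : S ≤ H k := (closure_le _).2 fun x hx => hx.1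
    have hSn : H k ≤ normalizer (S : Set G) := by
      rw [hS, le_normalizer_closure_iff]
      rintro g hg x ⟨hx, e, he⟩
      refine subset_closure ⟨(H k).mul_mem ((H k).mul_mem hg hx) ((H k).inv_mem hg), e, ?_⟩
      rw [conj_pow, he]; group
    have hSne : S ≠ ⊥ := by
      have := Fact.mk hpp
      obtain ⟨x, hx⟩ := exists_prime_orderOf_dvd_card' p hk
      rw [← Subgroup.orderOf_coe] at hx
      intro e
      have h1 : (x : G) ∈ S := subset_closure ⟨x.2, 1, by rw [pow_one, ← hx, pow_orderOf_eq_one]⟩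
      rw [e, mem_bot] at h1
      rw [h1, orderOf_one] at hx
      exact hpp.ne_one hx.symm
    obtain ⟨l, hl, hl'⟩ := exists_Op_ne_bot hSne (fun Z hZ hZ' => by
      rw [eq_bot_iff, ← hP]; exact le_sSup ⟨hZ.trans hSle, hZ'⟩)
    have := Fact.mk hl
    have hLn : H k ≤ normalizer (Op l S : Set G) := hSn.trans (normalizer_le_normalizer_Op _ _)
    have hL0 : Op l S ≤ Op l (H k) := le_Op ((Op_le _ _).trans hSle) hLn (isPGroup_Op _ _)
    have hL1 : ∀ j, Op l S ≤ Op l (H k ⊔ H j) := by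
      intro j
      by_cases hj : k = j
      · subst hj; rwa [sup_idem]
      apply (hm k j hj).le_Op hL0 hLn
      intro r hr hd K _ hK
      refine (Op_le _ _).trans ((closure_le _).2 ?_)
      rintro x ⟨hx, e, he⟩
      exact hK p hpp (hmax r hr (hd.trans (card_subgroup_dvd_card _))) x hx e he
    have hpm' : ∀ i j, Pm (H i) (H j) := by
      intro i j
      by_cases hij : i = j
      · subst hij; exact pm_of_le le_rfl
      · exact (hm i j hij).pm
    have hL2 : ∀ J : Finset ι, Op l S ≤ Op l (H k ⊔ ⨆ j ∈ J, H j) := by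
      intro J
      induction J using Finset.induction_on with
      | empty => simpa using hL0
      | insert j J _ ih =>
        have hp : Pm (H k ⊔ ⨆ j ∈ J, H j) (H k ⊔ H j) := by
          apply Pm.sup_left ((hpm' k k).sup_right (hpm' k j))
          exact Pm.iSup_left fun i => Pm.iSup_left fun _ => (hpm' i k).sup_right (hpm' i j)
        have := hp.le_Op_sup ih (hL1 j)
        rwa [Finset.iSup_insert, sup_comm (H j), sup_sup_distrib_left]
    have := Fintype.ofFinite ι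
    have hL3 : Op l S ≤ Op l ⊤ := by
      have := hL2 Finset.univ
      simp only [Finset.mem_univ, iSup_pos] at this
      rwa [htop, sup_top_eq] at this
    have hn : (Op l (⊤ : Subgroup G)).Normal := by
      rw [← normalizer_eq_top_iff, eq_top_iff]; exact le_normalizer_Op _ _
    have hW : (⨆ j, Op l ⊤ ⊓ H j) ≤ Op l ⊤ := iSup_le fun j => inf_le_left
    refine ⟨⨆ j, Op l ⊤ ⊓ H j, normal_iSup_inf hm htop _, fun e => hl' ?_,
      Or.inl ⟨l, hl, (isPGroup_Op l ⊤).to_le hW, iSup_mono fun j => ?_⟩⟩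
    · rw [eq_bot_iff, ← e]
      exact (le_inf hL3 ((Op_le _ _).trans hSle)).trans (le_iSup (fun j => Op l ⊤ ⊓ H j) k)
    · exact le_inf (le_iSup (fun j => Op l ⊤ ⊓ H j) j) inf_le_right
  · obtain ⟨M, ⟨h1, h2, h3⟩, hmin⟩ := (Set.toFinite {M : Subgroup G | M.Normal ∧ M ≠ ⊥ ∧
      M ≤ H k}).exists_minimal ⟨_, Perf_normal hm htop k, hP, Perf_le _⟩
    have hmin' : ∀ N : Subgroup G, N.Normal → N ≤ M → N = ⊥ ∨ N = M := by
      intro N hN hle
      by_cases hb : N = ⊥
      · exact Or.inl hb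
      · exact Or.inr (le_antisymm hle (hmin ⟨hN, hb, hle.trans h3⟩ hle))
    refine ⟨M, h1, h2, ?_⟩
    by_cases hO : ∀ l : ℕ, l.Prime → Op l M = ⊥
    · exact Or.inr ⟨hmin', hO, dichotomy hm htop hmin' hO h3⟩
    · push Not at hO
      obtain ⟨l, hl, hl'⟩ := hO
      have hn : (Op l M).Normal := by
        rw [← normalizer_eq_top_iff, eq_top_iff, ← normalizer_eq_top M]
        exact normalizer_le_normalizer_Op _ _
      have := (hmin' _ hn (Op_le _ _)).resolve_left hl'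
      exact Or.inl ⟨l, hl, this ▸ isPGroup_Op l M,
        (le_inf le_rfl h3).trans (le_iSup (fun j => M ⊓ H j) k)⟩

end Pool.Agent.P.MP_11c1cd_al
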